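import Pool.Agent.H512.CY.Grp

/-!
# Counting the good elements of a group with a subgroup of index two
-/

set_option autoImplicit false

namespace Pool.Agent.H512.CY

variable {G C : Type*} [Group G] [CommGroup C]

/-- the conjugate homomorphism `h ↦ f (τ⁻¹ h τ)` -/
def cj {H : Subgroup G} [H.Normal] (f : H →* C) (τ : G) : H →* C :=
  f.comp (MulAut.conjNormal τ⁻¹ : MulAut H).toMonoidHom

theorem cj_apply {H : Subgroup G} [H.Normal] (f : H →* C) (τ : G) (h : H) {y : H}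
    (hy : (y : G) = τ⁻¹ * h * τ) : cj f τ h = f y := by
  unfold cj
  rw [MonoidHom.comp_apply]
  congr 1
  apply Subtype.ext
  rw [hy]
  show ((MulAut.conjNormal τ⁻¹ h : H) : G) = _
  rw [MulAut.conjNormal_apply, inv_inv]

theorem cj_surj {H : Subgroup G} [H.Normal] {f : H →* C} (hf : Function.Surjective f) (τ : G) :
    Function.Surjective (cj f τ) := hf.comp (MulAut.conjNormal τ⁻¹ : MulAut H).surjective

/-- conjugation twice -/
theorem f_conj {H : Subgroup G} [H.Normal] (f : H →* C) {τ : G} (hτ : τ ^ 2 ∈ H) (h : H) {y : H}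
    (hy : (y : G) = τ * h * τ⁻¹) : f y = cj f τ h := by
  have h1 : cj f τ (⟨τ ^ 2, hτ⟩ * h * (⟨τ ^ 2, hτ⟩ : H)⁻¹) = f y := by
    apply cj_apply
    rw [hy]
    simp only [Subgroup.coe_mul, Subgroup.coe_inv]
    group
  rw [← h1, map_mul, map_mul, map_inv, mul_comm (cj f τ ⟨τ ^ 2, hτ⟩), mul_inv_cancel_right]

/-- the good elements -/
def GoodEl (H : Subgroup G) [H.Normal] (f : H →* C) (τ g : G) : Prop :=
  (∃ h : g ∈ H, Gen (f ⟨g, h⟩) ∧ Gen (cj f τ ⟨g, h⟩)) ∨ (g ∉ H ∧ ∃ h : g ^ 2 ∈ H, Gen (f ⟨g ^ 2, h⟩))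

theorem sq_formula {H : Subgroup G} [H.Normal] (f : H →* C) {τ : G} (hτ : τ ^ 2 ∈ H) (h : H) {y : H}
    (hy : (y : G) = ((h : G) * τ) ^ 2) : f y = f h * cj f τ h * f ⟨τ ^ 2, hτ⟩ := by
  have hc : τ * h * τ⁻¹ ∈ H := Subgroup.Normal.conj_mem inferInstance _ h.2 _
  have h1 : y = h * ⟨τ * h * τ⁻¹, hc⟩ * ⟨τ ^ 2, hτ⟩ := by
    apply Subtype.ext
    rw [hy]
    simp only [Subgroup.coe_mul]
    rw [pow_two, pow_two]
    group
  rw [h1, map_mul, map_mul, f_conj f hτ h (y := ⟨τ * h * τ⁻¹, hc⟩) rfl]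

theorem card_good [Finite G] [IsCyclic C] {H : Subgroup G} [H.Normal] {f : H →* C} {τ : G} (hτ : τ ∉ H)
    (hind : ∀ a b, a ∉ H → b ∉ H → a⁻¹ * b ∈ H)
    (hsur : ∀ c c' : C, ∃ h, f h = c ∧ cj f τ h = c') :
    Nat.card {g : G // GoodEl H f τ g} * (2 * (Nat.card C) ^ 2) =
      Nat.card G * ((Nat.card C).totient * ((Nat.card C).totient + Nat.card C)) := by
  classical
  have hfs : Function.Surjective f := fun c => by
    obtain ⟨h, h1, -⟩ := hsur c 1
    exact ⟨h, h1⟩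
  have hCfin : Finite C := Finite.of_surjective f hfs
  have hτ2 : τ ^ 2 ∈ H := by
    have h1 : τ⁻¹ ∉ H := fun h => hτ ((Subgroup.inv_mem_iff H).1 h)
    have := hind τ⁻¹ τ h1 hτ
    rwa [inv_inv, ← pow_two] at this
  set t : C := f ⟨τ ^ 2, hτ2⟩ with ht
  -- the two parts
  have e0 : Nat.card {h : H // Gen (f h) ∧ Gen (cj f τ h)} * (Nat.card C) ^ 2 =
      (Nat.card C).totient ^ 2 * Nat.card H := by
    have h1 := card_preimage (f.prod (cj f τ)) (fun x => by
      obtain ⟨h, h1, h2⟩ := hsur x.1 x.2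
      exact ⟨h, Prod.ext h1 h2⟩) (fun x : C × C => Gen x.1 ∧ Gen x.2)
    rw [Nat.card_prod] at h1
    have h2 : Nat.card {x : C × C // Gen x.1 ∧ Gen x.2} = (Nat.card C).totient ^ 2 := by
      rw [pow_two, ← card_gen (C := C), ← Nat.card_prod]
      exact Nat.card_congr ⟨fun x => (⟨x.1.1, x.2.1⟩, ⟨x.1.2, x.2.2⟩), fun x => ⟨(x.1.1, x.2.1), x.1.2, x.2.2⟩,
        fun x => rfl, fun x => rfl⟩
    rw [h2] at h1
    rw [pow_two (Nat.card C)]
    exact h1
  have e1 : Nat.card {h : H // Gen (f h * cj f τ h * t)} * Nat.card C = (Nat.card C).totient * Nat.card H := by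
    have h1 := card_preimage (f * cj f τ) (fun c => by
      obtain ⟨h, h1, h2⟩ := hsur c 1
      refine ⟨h, ?_⟩
      rw [MonoidHom.mul_apply, h1, h2, mul_one]) (fun x : C => Gen (x * t))
    have h2 : Nat.card {x : C // Gen (x * t)} = (Nat.card C).totient := by
      rw [← card_gen (C := C)]
      exact Nat.card_congr ⟨fun x => ⟨x.1 * t, x.2⟩, fun x => ⟨x.1 * t⁻¹, by
        rw [inv_mul_cancel_right]; exact x.2⟩, fun x => by simp, fun x => by simp⟩
    rw [h2] at h1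
    exact h1
  -- the whole group
  have e2 : Nat.card {g : G // GoodEl H f τ g} =
      Nat.card {h : H // Gen (f h) ∧ Gen (cj f τ h)} + Nat.card {h : H // Gen (f h * cj f τ h * t)} := by
    rw [← Nat.card_sum]
    symm
    refine Nat.card_congr (Equiv.ofBijective
      (fun x : {h : H // Gen (f h) ∧ Gen (cj f τ h)} ⊕ {h : H // Gen (f h * cj f τ h * t)} =>
        (Sum.elim (fun h => ⟨(h.1 : G), Or.inl ⟨h.1.2, h.2⟩⟩) (fun h => ⟨(h.1 : G) * τ, Or.inr ⟨?_, ?_, ?_⟩⟩) x :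
          {g : G // GoodEl H f τ g})) ⟨?_, ?_⟩)
    · exact fun h' => hτ ((Subgroup.mul_mem_cancel_left _ h.1.2).1 h')
    · have h1 : ((h.1 : G) * τ) ∉ H := fun h' => hτ ((Subgroup.mul_mem_cancel_left _ h.1.2).1 h')
      have h2 : ((h.1 : G) * τ)⁻¹ ∉ H := fun h => h1 ((Subgroup.inv_mem_iff H).1 h)
      have := hind _ _ h2 h1
      rwa [inv_inv, ← pow_two] at this
    · rw [sq_formula f hτ2 h.1 rfl]
      exact h.2
    · rintro (x | x) (y | y) hxy
      · have h1 : ((x.1 : H) : G) = (y.1 : G) := congrArg (fun z : {g : G // GoodEl H f τ g} => (z : G)) hxy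
        congr 1
        apply Subtype.ext
        apply Subtype.ext
        exact h1
      · exfalso
        have h1 : ((x.1 : H) : G) = (y.1 : G) * τ := congrArg (fun z : {g : G // GoodEl H f τ g} => (z : G)) hxy
        apply hτ
        have h2 : τ = (y.1 : G)⁻¹ * x.1 := by
          rw [h1, inv_mul_cancel_left]
        rw [h2]
        exact Subgroup.mul_mem _ (Subgroup.inv_mem _ y.1.2) x.1.2
      · exfalso
        have h1 : ((x.1 : H) : G) * τ = (y.1 : G) := congrArg (fun z : {g : G // GoodEl H f τ g} => (z : G)) hxy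
        apply hτ
        have h2 : τ = (x.1 : G)⁻¹ * y.1 := by
          rw [← h1, inv_mul_cancel_left]
        rw [h2]
        exact Subgroup.mul_mem _ (Subgroup.inv_mem _ x.1.2) y.1.2
      · congr 1
        apply Subtype.ext
        apply Subtype.ext
        have h1 : ((x.1 : H) : G) * τ = (y.1 : G) * τ := congrArg (fun z : {g : G // GoodEl H f τ g} => (z : G)) hxy
        exact mul_right_cancel h1
    · rintro ⟨g, hg⟩
      rcases hg with ⟨h, hg⟩ | ⟨h, h2, hg⟩
      · exact ⟨Sum.inl ⟨⟨g, h⟩, hg⟩, rfl⟩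
      · have h3 : g * τ⁻¹ ∈ H := by
          have h4 : g⁻¹ ∉ H := fun h' => h ((Subgroup.inv_mem_iff H).1 h')
          have h5 : τ⁻¹ ∉ H := fun h' => hτ ((Subgroup.inv_mem_iff H).1 h')
          have := hind _ _ h4 h5
          rwa [inv_inv] at this
        refine ⟨Sum.inr ⟨⟨g * τ⁻¹, h3⟩, ?_⟩, ?_⟩
        · rw [← sq_formula f hτ2 ⟨g * τ⁻¹, h3⟩ (y := ⟨g ^ 2, h2⟩) (by
            show g ^ 2 = (g * τ⁻¹ * τ) ^ 2
            rw [inv_mul_cancel_right])]
          exact hg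
        · apply Subtype.ext
          show g * τ⁻¹ * τ = g
          rw [inv_mul_cancel_right]
  have e3 : Nat.card G = 2 * Nat.card H := by
    have h1 : H.index = 2 := by
      rw [Subgroup.index_eq_two_iff]
      refine ⟨τ, fun b => ?_⟩
      by_cases hb : b ∈ H
      · refine Or.inr ⟨hb, fun h' => hτ ((Subgroup.mul_mem_cancel_left _ hb).1 h')⟩
      · refine Or.inl ⟨?_, hb⟩
        have h4 : b⁻¹ ∉ H := fun h' => hb ((Subgroup.inv_mem_iff H).1 h')
        have := hind _ _ h4 hτ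
        rwa [inv_inv] at this
    rw [← h1, mul_comm, Subgroup.card_mul_index]
  rw [e2, e3]
  calc _ = 2 * (Nat.card {h : H // Gen (f h) ∧ Gen (cj f τ h)} * (Nat.card C) ^ 2) +
        2 * Nat.card C * (Nat.card {h : H // Gen (f h * cj f τ h * t)} * Nat.card C) := by ring
    _ = _ := by
      rw [e0, e1]
      ring

end Pool.Agent.H512.CY
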