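import Pool.Agent.H512.CY.Fam

/-!
# The number of the elements which generate in two cyclic quotients
-/

set_option autoImplicit false

namespace Pool.Agent.H512.CY

variable {H C : Type*} [Group H] [CommGroup C]

/-- powers of generators -/
theorem Gen.pow_of_coprime [Finite C] {c : C} (h : Gen c) {u : ℕ} (hu : (Nat.card C).Coprime u) : Gen (c ^ u) := by
  rw [gen_iff_orderOf] at h ⊢
  rw [orderOf_pow, h, hu, Nat.div_one]

theorem exists_coprime_pow [Finite C] {y z : C} (hy : Gen y) (hz : Gen z) : ∃ u, (Nat.card C).Coprime u ∧ z ^ u = y := by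
  obtain ⟨u, hu⟩ := (isOfFinOrder_of_finite z).mem_powers_iff_mem_zpowers.2 (hz y)
  have hu' : z ^ u = y := hu
  refine ⟨u, ?_, hu'⟩
  rw [gen_iff_orderOf] at hy hz
  rw [← hu', orderOf_pow, hz] at hy
  have hpos : 0 < Nat.card C := Nat.card_pos
  by_contra hne
  have h1 : 1 < Nat.gcd (Nat.card C) u := by
    have h0 : 0 < Nat.gcd (Nat.card C) u := Nat.gcd_pos_of_pos_left _ hpos
    have h2 : Nat.gcd (Nat.card C) u ≠ 1 := hne
    omega
  have := Nat.div_lt_self hpos h1
  omega

/-- the number of the generators in a coset of a generator -/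
theorem card_coset [Finite C] [IsCyclic C] (N : Subgroup C) {y : C} (hy : Gen y) :
    Nat.card N * (Nat.card C).totient ≤ Nat.card {z : N // Gen (y * z)} * Nat.card C := by
  classical
  have := Fintype.ofFinite C
  have hft : Fintype (C ⧸ N) := Fintype.ofFinite _
  let S : Finset C := Finset.univ.filter fun c => Gen c
  let F : ℕ := (S.filter fun c => (QuotientGroup.mk c : C ⧸ N) = QuotientGroup.mk y).card
  have h1 : S.card = (Nat.card C).totient := by
    rw [← card_gen (C := C), Nat.card_eq_fintype_card, Fintype.card_subtype]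
  have h2 : ∀ a ∈ S.image (fun c : C => (QuotientGroup.mk c : C ⧸ N)),
      (S.filter fun c => (QuotientGroup.mk c : C ⧸ N) = a).card ≤ F := by
    intro a ha
    obtain ⟨z, hz, rfl⟩ := Finset.mem_image.1 ha
    obtain ⟨u, hu, huy⟩ := exists_coprime_pow hy (Finset.mem_filter.1 hz).2
    refine Finset.card_le_card_of_injOn (fun c => c ^ u) ?_ ?_
    · intro c hc
      have hc' := Finset.mem_filter.1 (Finset.mem_coe.1 hc)
      refine Finset.mem_coe.2 (Finset.mem_filter.2 ⟨Finset.mem_filter.2 ⟨Finset.mem_univ _, ?_⟩, ?_⟩)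
      · exact (Finset.mem_filter.1 hc'.1).2.pow_of_coprime hu
      · rw [← huy, QuotientGroup.mk_pow, QuotientGroup.mk_pow, hc'.2]
    · intro c _ d _ hcd
      exact (powCoprime hu).injective hcd
  have h3 := Finset.card_le_mul_card_image S F h2
  have h4 : (S.image (fun c : C => (QuotientGroup.mk c : C ⧸ N))).card ≤ Fintype.card (C ⧸ N) :=
    Finset.card_le_univ _
  have h5 : F = Nat.card {z : N // Gen (y * z)} := by
    have e1 : F = Nat.card {c : C // Gen c ∧ (QuotientGroup.mk c : C ⧸ N) = QuotientGroup.mk y} := by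
      show ((Finset.univ.filter fun c => Gen c).filter fun c => (QuotientGroup.mk c : C ⧸ N) =
        QuotientGroup.mk y).card = _
      rw [Finset.filter_filter, Nat.card_eq_fintype_card, Fintype.card_subtype]
    rw [e1]
    refine Nat.card_congr ⟨fun c => ⟨⟨y⁻¹ * c.1, ?_⟩, ?_⟩, fun z => ⟨y * z.1, z.2, ?_⟩, fun c => ?_, fun z => ?_⟩
    · exact QuotientGroup.eq.1 c.2.2.symm
    · show Gen (y * (y⁻¹ * c.1))
      rw [mul_inv_cancel_left]
      exact c.2.1
    · rw [eq_comm, QuotientGroup.eq, inv_mul_cancel_left]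
      exact z.1.2
    · apply Subtype.ext
      show y * (y⁻¹ * c.1) = c.1
      rw [mul_inv_cancel_left]
    · apply Subtype.ext
      apply Subtype.ext
      show y⁻¹ * (y * z.1) = z.1
      rw [inv_mul_cancel_left]
  have h6 : Nat.card C = Fintype.card (C ⧸ N) * Nat.card N := by
    rw [← Nat.card_eq_fintype_card (α := C ⧸ N)]
    exact Subgroup.card_eq_card_quotient_mul_card_subgroup N
  rw [← h5]
  calc Nat.card N * (Nat.card C).totient = Nat.card N * S.card := by rw [h1]
    _ ≤ Nat.card N * (F * Fintype.card (C ⧸ N)) := Nat.mul_le_mul_left _ (h3.trans (Nat.mul_le_mul_left _ h4))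
    _ = F * Nat.card C := by rw [h6]; ring

/-- **The number of the elements which generate in two cyclic quotients.** -/
theorem card_two [Finite H] [Finite C] [IsCyclic C] (f1 f2 : H →* C) (h1 : Function.Surjective f1)
    (h2 : Function.Surjective f2) : (Nat.card C).totient ^ 2 * Nat.card H ≤
      Nat.card {h : H // Gen (f1 h) ∧ Gen (f2 h)} * (Nat.card C) ^ 2 := by
  classical
  obtain ⟨g0, hg1, hg2⟩ := exists_gen f1 f2 h1 h2
  let q : f1.ker →* C := f2.comp f1.ker.subtype
  -- a fibre
  have hfib : ∀ x : {x : C // Gen x}, (Nat.card C).totient * Nat.card f1.ker ≤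
      Nat.card {h : H // f1 h = x.1 ∧ Gen (f2 h)} * Nat.card C := by
    rintro ⟨x, hx⟩
    obtain ⟨u, hu, hux⟩ := exists_coprime_pow hx hg1
    have hgx1 : f1 (g0 ^ u) = x := by rw [map_pow, hux]
    have hgx2 : Gen (f2 (g0 ^ u)) := by
      rw [map_pow]
      exact hg2.pow_of_coprime hu
    have e1 : Nat.card {h : H // f1 h = x ∧ Gen (f2 h)} =
        Nat.card {h : f1.ker // Gen (f2 (g0 ^ u) * (q.rangeRestrict h : C))} := by
      refine Nat.card_congr ⟨fun h => ⟨⟨(g0 ^ u)⁻¹ * h.1, ?_⟩, ?_⟩, fun h => ⟨g0 ^ u * h.1, ?_, ?_⟩, fun h => ?_,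
        fun h => ?_⟩
      · rw [MonoidHom.mem_ker, map_mul, map_inv, hgx1, h.2.1, inv_mul_cancel]
      · show Gen (f2 (g0 ^ u) * f2 ((g0 ^ u)⁻¹ * h.1))
        rw [← map_mul, mul_inv_cancel_left]
        exact h.2.2
      · rw [map_mul, hgx1, MonoidHom.mem_ker.1 h.1.2, mul_one]
      · rw [map_mul]
        exact h.2
      · apply Subtype.ext
        show g0 ^ u * ((g0 ^ u)⁻¹ * h.1) = h.1
        rw [mul_inv_cancel_left]
      · apply Subtype.ext
        apply Subtype.ext
        show (g0 ^ u)⁻¹ * (g0 ^ u * h.1) = h.1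
        rw [inv_mul_cancel_left]
    have e2 := card_preimage q.rangeRestrict q.rangeRestrict_surjective
      (fun z : q.range => Gen (f2 (g0 ^ u) * (z : C)))
    have e3 := card_coset q.range hgx2
    rw [e1]
    have hpos : 0 < Nat.card q.range := Nat.card_pos
    refine le_of_mul_le_mul_left (a := Nat.card q.range) ?_ hpos
    calc Nat.card q.range * ((Nat.card C).totient * Nat.card f1.ker) =
          (Nat.card q.range * (Nat.card C).totient) * Nat.card f1.ker := by ring
      _ ≤ (Nat.card {z : q.range // Gen (f2 (g0 ^ u) * (z : C))} * Nat.card C) * Nat.card f1.ker :=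
          Nat.mul_le_mul_right _ e3
      _ = (Nat.card {z : q.range // Gen (f2 (g0 ^ u) * (z : C))} * Nat.card f1.ker) * Nat.card C := by ring
      _ = _ := by
          rw [← e2]
          ring
  have hH : Nat.card H = Nat.card C * Nat.card f1.ker := by
    rw [Subgroup.card_eq_card_quotient_mul_card_subgroup f1.ker,
      Nat.card_congr (QuotientGroup.quotientKerEquivOfSurjective f1 h1).toEquiv]
  have e4 : Nat.card {h : H // Gen (f1 h) ∧ Gen (f2 h)} =
      Nat.card (Σ x : {x : C // Gen x}, {h : H // f1 h = x.1 ∧ Gen (f2 h)}) := by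
    symm
    refine Nat.card_congr (Equiv.ofBijective (fun z : (Σ x : {x : C // Gen x}, {h : H // f1 h = x.1 ∧ Gen (f2 h)}) =>
      (⟨z.2.1, by rw [z.2.2.1]; exact z.1.2, z.2.2.2⟩ : {h : H // Gen (f1 h) ∧ Gen (f2 h)})) ⟨?_, ?_⟩)
    · rintro ⟨⟨x, hx⟩, ⟨h, hh1, hh2⟩⟩ ⟨⟨x', hx'⟩, ⟨h', hh1', hh2'⟩⟩ heq
      have e : h = h' := congrArg (fun z : {h : H // Gen (f1 h) ∧ Gen (f2 h)} => z.1) heq
      subst e
      have e2 : x = x' := hh1.symm.trans hh1'
      subst e2
      rfl
    · rintro ⟨h, hh1, hh2⟩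
      exact ⟨⟨⟨f1 h, hh1⟩, ⟨h, rfl, hh2⟩⟩, rfl⟩
  have hft : Fintype {x : C // Gen x} := Fintype.ofFinite _
  rw [e4, Nat.card_sigma, hH]
  have e5 : Fintype.card {x : C // Gen x} = (Nat.card C).totient := by
    rw [← Nat.card_eq_fintype_card, card_gen]
  calc (Nat.card C).totient ^ 2 * (Nat.card C * Nat.card f1.ker) =
        (∑ _x : {x : C // Gen x}, (Nat.card C).totient * Nat.card f1.ker) * Nat.card C := by
        rw [Finset.sum_const, Finset.card_univ, e5, smul_eq_mul]
        ring
    _ ≤ (∑ x : {x : C // Gen x}, Nat.card {h : H // f1 h = x.1 ∧ Gen (f2 h)} * Nat.card C) * Nat.card C :=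
        Nat.mul_le_mul_right _ (Finset.sum_le_sum fun x _ => hfib x)
    _ = _ := by
        rw [← Finset.sum_mul]
        ring

end Pool.Agent.H512.CY
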