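import Pool.Agent.H515.Inf

/-!
# The transfer theorem of MP_d0239a_nt.FrobeniusTransfer (helper515)

A copy of the definitions and of the main theorem of this hand-in, for the use in MP_b78433_nt.
-/

set_option autoImplicit false

namespace Pool.Agent.H512.CY.FT

open NumberField IsDedekindDomain

/-- `E` is the `n`-th layer of the cyclotomic `ℤ_p`-extension of `ℚ`. -/
def IsLayer (p n : ℕ) (E : IntermediateField ℚ ℂ) : Prop :=
  E ≤ IntermediateField.adjoin ℚ {z : ℂ | z ^ (p ^ (n + 2)) = 1} ∧
    Module.finrank ℚ E = p ^ n ∧ ∀ x ∈ E, starRingEnd ℂ x = x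

/-- The subgroup of the class group of `K` generated by the classes of the primes above `p`. -/
noncomputable def ClassesAbove (p : ℕ) (K : Type) [Field K] [NumberField K] : Subgroup (ClassGroup (𝓞 K)) :=
  Subgroup.closure {c : ClassGroup (𝓞 K) | ∃ I : nonZeroDivisors (Ideal (𝓞 K)),
    (I : Ideal (𝓞 K)).IsPrime ∧ ((p : 𝓞 K)) ∈ (I : Ideal (𝓞 K)) ∧ ClassGroup.mk0 I = c}

/-- The `p`-primary parts of the class groups of `K` and `L` are isomorphic. -/
def SamePart (p : ℕ) (K L : Type) [Field K] [NumberField K] [Field L] [NumberField L] : Prop :=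
  Nonempty (CommGroup.primaryComponent (ClassGroup (𝓞 K)) p ≃*
    CommGroup.primaryComponent (ClassGroup (𝓞 L)) p)

/-- The `p`-primary parts of the class groups of `K` and `L` modulo the classes of the primes above
`p` are isomorphic. -/
def SamePartMod (p : ℕ) (K L : Type) [Field K] [NumberField K] [Field L] [NumberField L] : Prop :=
  Nonempty (CommGroup.primaryComponent (ClassGroup (𝓞 K) ⧸ ClassesAbove p K) p ≃*
    CommGroup.primaryComponent (ClassGroup (𝓞 L) ⧸ ClassesAbove p L) p)

/-- The `p`-parts of the class groups of the `n`-th layers `F E` and `k E` are isomorphic for all `n`,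
and so are those of the class groups modulo the classes of the primes above `p`. -/
def SameTower (p : ℕ) (k F : IntermediateField ℚ ℂ) : Prop :=
  ∀ (n : ℕ) (E : IntermediateField ℚ ℂ), IsLayer p n E →
    ∀ [NumberField ↥(k ⊔ E)] [NumberField ↥(F ⊔ E)],
      SamePart p ↥(F ⊔ E) ↥(k ⊔ E) ∧ SamePartMod p ↥(F ⊔ E) ↥(k ⊔ E)

/-- The number of the elements of order dividing `p` of the class group of `K` modulo the classes of
the primes above `p`. -/
noncomputable def rk (p : ℕ) (K : Type) [Field K] [NumberField K] : ℕ :=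
  Nat.card {g : ClassGroup (𝓞 K) ⧸ ClassesAbove p K // g ^ p = 1}

/-- Iwasawa's conjecture `μ = 0` for `p` and `F`, as in the frozen statement S18549. -/
def MuZero (p : ℕ) (F : IntermediateField ℚ ℂ) : Prop :=
  ∃ C : ℕ, ∀ (n : ℕ) (E : IntermediateField ℚ ℂ), IsLayer p n E →
    ∀ [NumberField ↥(F ⊔ E)], rk p ↥(F ⊔ E) ≤ C

/-- `g` is a Frobenius element at a prime of `M` above `p`. -/
def IsFrob (p : ℕ) (M : IntermediateField ℚ ℂ) [NumberField M] (g : M ≃ₐ[ℚ] M) : Prop :=
  ∃ Q : Ideal (𝓞 M), Q.IsPrime ∧ (p : 𝓞 M) ∈ Q ∧ ∀ x : 𝓞 M, ∃ y ∈ Q, (y : M) = g x - (x : M) ^ p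

theorem same_muZero {p : ℕ} (hp : p.Prime) {k F : IntermediateField ℚ ℂ}
    (hk : FiniteDimensional ℚ k) (hF : FiniteDimensional ℚ F) (h : SameTower p k F) :
    MuZero p F ↔ MuZero p k := by
  have hfp : Fact p.Prime := ⟨hp⟩
  constructor
  · rintro ⟨C, hC⟩
    refine ⟨C, fun n E hE => ?_⟩
    intro hkE
    have hEf := Pool.Agent.H515.CH.sub_fin (pow_ne_zero _ hp.ne_zero) hE.1
    have hFE : NumberField ↥(F ⊔ E) := Pool.Agent.H515.CH.nf (Pool.Agent.H515.CH.sup_fin hF hEf)
    obtain ⟨-, ⟨e⟩⟩ := h n E hE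
    have h4 := hC n E hE
    exact (le_of_eq (Pool.Agent.H515.CH.card_tors e).symm).trans h4
  · rintro ⟨C, hC⟩
    refine ⟨C, fun n E hE => ?_⟩
    intro hFE
    have hEf := Pool.Agent.H515.CH.sub_fin (pow_ne_zero _ hp.ne_zero) hE.1
    have hkE : NumberField ↥(k ⊔ E) := Pool.Agent.H515.CH.nf (Pool.Agent.H515.CH.sup_fin hk hEf)
    obtain ⟨-, ⟨e⟩⟩ := h n E hE
    have h4 := hC n E hE
    exact (le_of_eq (Pool.Agent.H515.CH.card_tors e)).trans h4

/-- Let `M / ℚ` be a finite Galois extension, `k ⊆ F ⊆ M` and `g ∈ Gal(M/ℚ)` such that any two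
embeddings of `F` in `M` that agree on `k` differ by a power of `g`. Then for all but finitely many of
the infinitely many primes `p` with Frobenius element `g`, the `p`-parts of the class groups of the
layers `F_n` and `k_n` are isomorphic for all `n` (also modulo the primes above `p`), and `μ = 0` for
`F` and `p` if and only if `μ = 0` for `k` and `p`. -/
theorem transfer (M F k : IntermediateField ℚ ℂ) [NumberField M] (hM : IsGalois ℚ M)
    (hkF : k ≤ F) (hFM : F ≤ M) (g : M ≃ₐ[ℚ] M)
    (hg : ∀ i j : F →ₐ[ℚ] M, (∀ x : F, (x : ℂ) ∈ k → i x = j x) →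
      ∃ n : ℕ, ∀ x : F, (g ^ n) (i x) = j x) :
    {p : ℕ | p.Prime ∧ IsFrob p M g}.Infinite ∧
      ∃ B : ℕ, ∀ p : ℕ, p.Prime → B < p → IsFrob p M g →
        SameTower p k F ∧ (MuZero p F ↔ MuZero p k) := by
  classical
  have hMf : FiniteDimensional ℚ M := inferInstance
  have hFf : FiniteDimensional ℚ F :=
    FiniteDimensional.of_injective (IntermediateField.inclusion hFM).toLinearMap
      (IntermediateField.inclusion hFM).injective
  have hkf : FiniteDimensional ℚ k :=
    FiniteDimensional.of_injective (IntermediateField.inclusion hkF).toLinearMap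
      (IntermediateField.inclusion hkF).injective
  have hFN : NumberField F := Pool.Agent.H515.CH.nf hFf
  have hkN : NumberField k := Pool.Agent.H515.CH.nf hkf
  constructor
  · rw [Set.infinite_iff_exists_gt]
    intro B0
    obtain ⟨p, hp, hB, hF⟩ := Pool.Agent.H515.CH.frob_infinite g B0
    exact ⟨p, ⟨hp, hF⟩, hB⟩
  · have hkM : k ≤ M := hkF.trans hFM
    let i1 := Pool.Agent.H515.CH.inc hkF
    let i2 := Pool.Agent.H515.CH.inc hFM
    let i3 := Pool.Agent.H515.CH.inc hkM
    have t1 : IsScalarTower k F M := IsScalarTower.of_algebraMap_eq fun x => rfl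
    obtain ⟨B0, hB0⟩ := Pool.Agent.H515.CH.exists_bound M
    refine ⟨B0 + classNumber F + classNumber k + Module.finrank ℚ F, fun p hp hB hFr => ?_⟩
    have hfp : Fact p.Prime := ⟨hp⟩
    obtain ⟨v, hpv, hvF⟩ := Pool.Agent.H515.CH.FrobAt.exists_v hp hFr
    have hu := hB0 p hp (by omega) v hpv
    have ho : Pool.Agent.H515.CH.orbs g F = Pool.Agent.H515.CH.orbs g k :=
      Pool.Agent.H515.CH.orbs_eq fun i j hij => hg i j fun x hx => hij ⟨x, hx⟩
    have hone : Pool.Agent.H515.CH.OnePrimeAbove p k F := by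
      intro P Q hP hQ hpP hpQ hPQ
      have h0 : ∀ P : Ideal (𝓞 F), (p : 𝓞 F) ∈ P → P ≠ ⊥ := by
        rintro P hpP rfl
        rw [Ideal.mem_bot] at hpP
        exact hp.ne_zero (by exact_mod_cast hpP)
      let w : HeightOneSpectrum (𝓞 F) := ⟨P, hP, h0 P hpP⟩
      let w' : HeightOneSpectrum (𝓞 F) := ⟨Q, hQ, h0 Q hpQ⟩
      have h1 : w.under (𝓞 k) = w'.under (𝓞 k) := by
        apply HeightOneSpectrum.ext
        ext y
        exact hPQ (algebraMap (𝓞 k) (𝓞 F) y) y.1.2
      have h2 : w.under (𝓞 ℚ) = v := Pool.Agent.H515.CH.rat_prime_unique hp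
        (Pool.Agent.H515.CH.mem_under.2 hpP) hpv
      have h3 := Pool.Agent.H515.CH.nonsplit_of_orbs (K := ℚ) (k := k) hu hvF ho h2 h1
      exact congrArg HeightOneSpectrum.asIdeal h3
    have hcF : padicValNat p (classNumber F) = 0 :=
      padicValNat.eq_zero_of_not_dvd fun h => by
        have := Nat.le_of_dvd (classNumber_pos F) h
        omega
    have hck : padicValNat p (classNumber k) = 0 :=
      padicValNat.eq_zero_of_not_dvd fun h => by
        have := Nat.le_of_dvd (classNumber_pos k) h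
        omega
    have hm : Module.finrank ℚ F = Module.finrank ℚ k * Module.finrank k F :=
      (Module.finrank_mul_finrank ℚ k F).symm
    have hpos : 0 < Module.finrank k F := Module.finrank_pos
    have hcop : (Module.finrank k F).Coprime p := by
      have hle : Module.finrank k F ≤ Module.finrank ℚ F :=
        Nat.le_of_dvd Module.finrank_pos ⟨_, by rw [hm, mul_comm]⟩
      exact (Nat.coprime_of_lt_prime hpos.ne' (by omega) hp).symm
    have hS : SameTower p k F := by
      intro n E hE _ _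
      exact Pool.Agent.H515.CH.layer_transfer hp hkF hm hcop hone (by rw [hcF, hck]) hE
    exact ⟨hS, same_muZero hp hkf hFf hS⟩

end Pool.Agent.H512.CY.FT
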