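import Pool.Agent.H512.CY.Uni
import Pool.Agent.H512.CY.FT
import Pool.Graph.R_pool_sql_team_seeded_1acbe0a2.Y114.TF.Dens

/-!
# Densities
-/

set_option autoImplicit false
set_option linter.unusedSectionVars false

namespace Pool.Agent.H512.CY

open IntermediateField NumberField Filter Topology

variable {M K A k L : IntermediateField ℚ ℂ} [NumberField M] [IsGalois ℚ M] {s : K ≃ₐ[ℚ] K}

theorem isFrob_of_xp {p : ℕ} {g : M ≃ₐ[ℚ] M} (h : Pool.Agent.W401.Cheb.xp M g p ≠ 0) : FT.IsFrob p M g := by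
  unfold Pool.Agent.W401.Cheb.xp at h
  split_ifs at h with hp
  · have : Fact p.Prime := ⟨hp⟩
    have hne : Nonempty {φ : 𝓞 M →+* AlgebraicClosure (ZMod p) // Pool.Agent.W401.Cheb.HasFrob p φ g} := by
      by_contra hcon
      rw [not_nonempty_iff] at hcon
      exact h Nat.card_of_isEmpty
    obtain ⟨φ, hφ⟩ := hne
    refine ⟨RingHom.ker φ, RingHom.ker_isPrime φ, ?_, fun x => ⟨g • x - x ^ p, ?_, ?_⟩⟩
    · rw [RingHom.mem_ker, map_natCast]
      exact CharP.cast_eq_zero _ p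
    · rw [RingHom.mem_ker, map_sub, map_pow, hφ x, sub_self]
    · rfl
  · exact absurd rfl h

/-- The property of the prime `p` which is studied. -/
def Good (p : ℕ) (A K : IntermediateField ℚ ℂ) : Prop :=
  FT.SameTower p A K ∧ (FT.MuZero p K ↔ FT.MuZero p A)

theorem exists_D (hKM : K ≤ M) (hAK : A ≤ K) : ∃ D : ℕ, 0 < D ∧ ∀ p : ℕ, p.Prime → ¬ p ∣ D →
    (∃ g ∈ {g : M ≃ₐ[ℚ] M | OneOrbit A K g}, Pool.Agent.W401.Cheb.xp M g p ≠ 0) → Good p A K := by
  classical
  have h1 : ∀ g : M ≃ₐ[ℚ] M, ∃ B : ℕ, OneOrbit A K g → ∀ p : ℕ, p.Prime → B < p → FT.IsFrob p M g → Good p A K := by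
    intro g
    by_cases hg : OneOrbit A K g
    · obtain ⟨-, B, hB⟩ := FT.transfer M K A inferInstance hAK hKM g hg
      exact ⟨B, fun _ => hB⟩
    · exact ⟨0, fun h => absurd h hg⟩
  choose B hB using h1
  have := Fintype.ofFinite (M ≃ₐ[ℚ] M)
  refine ⟨(∑ g, B g).factorial, Nat.factorial_pos _, fun p hp hpD => ?_⟩
  rintro ⟨g, hg, hx⟩
  refine hB g hg p hp ?_ (isFrob_of_xp hx)
  by_contra hle
  apply hpD
  refine Nat.dvd_factorial hp.pos ((not_lt.1 hle).trans ?_)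
  exact Finset.single_le_sum (f := B) (fun _ _ => Nat.zero_le _) (Finset.mem_univ g)

/-- The lower density of the primes with the property `P` is at least `c`. -/
def LowerDensityAtLeast (c : ℝ) (P : ℕ → Prop) : Prop :=
  ∀ ε : ℝ, 0 < ε → ∃ N₀ : ℕ, ∀ N : ℕ, N₀ ≤ N →
    (c - ε) * (Nat.primeCounting N : ℝ) ≤ ({p : ℕ | p.Prime ∧ p ≤ N ∧ P p}.ncard : ℝ)

theorem lower_of_proportion {c : ℝ} {P : ℕ → Prop}
    (h : ∀ ε : ℝ, 0 < ε → ∀ᶠ N in atTop, c - ε < Pool.Agent.Y114.TF.proportion P N) : LowerDensityAtLeast c P := by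
  classical
  intro ε hε
  obtain ⟨N₀, hN₀⟩ := eventually_atTop.1 (h ε hε)
  refine ⟨N₀ + 2, fun N hN => ?_⟩
  have h1 := hN₀ N (by omega)
  have hpos : (0 : ℝ) < Nat.primeCounting N := by
    have : 0 < Nat.primeCounting N := by
      rw [Nat.pos_iff_ne_zero, Ne, Nat.primeCounting_eq_zero_iff]
      omega
    exact_mod_cast this
  unfold Pool.Agent.Y114.TF.proportion at h1
  rw [lt_div_iff₀ hpos] at h1
  refine h1.le.trans (le_of_eq ?_)
  norm_cast
  rw [← Set.ncard_coe_finset]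
  congr 1
  ext p
  simp only [Finset.coe_filter, Finset.mem_range, Set.mem_setOf_eq]
  constructor
  · rintro ⟨h1, h2, h3⟩
    exact ⟨h2, by omega, h3⟩
  · rintro ⟨h1, h2, h3⟩
    exact ⟨by omega, h1, h3⟩

theorem density (hKM : K ≤ M) (hAK : A ≤ K) {c : ℝ}
    (hc : c * (Nat.card (M ≃ₐ[ℚ] M) : ℝ) ≤ (Nat.card {g : M ≃ₐ[ℚ] M // OneOrbit A K g} : ℝ)) :
    LowerDensityAtLeast c fun p => Good p A K := by
  classical
  have := Fintype.ofFinite (M ≃ₐ[ℚ] M)
  obtain ⟨D, hD, hDp⟩ := exists_D hKM hAK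
  let C : Finset (M ≃ₐ[ℚ] M) := Finset.univ.filter fun g => OneOrbit A K g
  have hmem : ∀ g, g ∈ C ↔ OneOrbit A K g := fun g => by simp [C]
  have h1 := Pool.Agent.Y114.TF.dens_class M C fun σ hσ τ => (hmem _).2 (((hmem _).1 hσ).conj τ)
  have hcard : (C.card : ℝ) = (Nat.card {g : M ≃ₐ[ℚ] M // OneOrbit A K g} : ℝ) := by
    rw [Nat.card_eq_fintype_card, Fintype.card_subtype]
  have hpos : (0 : ℝ) < Nat.card (M ≃ₐ[ℚ] M) := by exact_mod_cast Nat.card_pos
  have hle : c ≤ (C.card : ℝ) / (Nat.card (M ≃ₐ[ℚ] M) : ℝ) := by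
    rw [le_div_iff₀ hpos, hcard]
    exact hc
  apply lower_of_proportion
  intro ε hε
  have h2 := Pool.Agent.Y114.TF.lower_of_tendsto (Q := fun p => Good p A K) hD
    (fun p hp hpD h => hDp p hp hpD (by
      obtain ⟨σ, hσ, hx⟩ := h
      exact ⟨σ, (hmem _).1 hσ, hx⟩)) h1 ε hε
  filter_upwards [h2] with N hN
  linarith

/-- the Galois closure -/
theorem exists_big (K : IntermediateField ℚ ℂ) [FiniteDimensional ℚ K] :
    ∃ (M : IntermediateField ℚ ℂ) (_ : NumberField M) (_ : IsGalois ℚ M), K ≤ M := by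
  have hN : IsNormalClosure ℚ K (IntermediateField.normalClosure ℚ K ℂ) :=
    Algebra.IsAlgebraic.isNormalClosure_normalClosure (fun x => IsAlgClosed.splits _)
  have hn : Normal ℚ (IntermediateField.normalClosure ℚ K ℂ) := hN.normal
  have hfd : FiniteDimensional ℚ (IntermediateField.normalClosure ℚ K ℂ) := inferInstance
  have hnf : NumberField (IntermediateField.normalClosure ℚ K ℂ) :=
    { to_charZero := inferInstance
      to_finiteDimensional := by convert hfd }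
  have hg : IsGalois ℚ (IntermediateField.normalClosure ℚ K ℂ) := {}
  refine ⟨IntermediateField.normalClosure ℚ K ℂ, hnf, by convert hg, ?_⟩
  intro x hx
  exact AlgHom.fieldRange_le_normalClosure K.val ⟨⟨x, hx⟩, rfl⟩

end Pool.Agent.H512.CY
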