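import Pool.Agent.H512.CY.Grp

/-!
# Elements which generate in several cyclic quotients
-/

set_option autoImplicit false

namespace Pool.Agent.H512.CY

variable {H C : Type*} [Group H] [CommGroup C]

/-- a finite group is not the union of at most `l` subgroups of index `l`, `l ≥ 2` -/
theorem exists_notMem_family [Finite H] {ι : Type*} [Finite ι] (P : ι → Subgroup H) {l : ℕ} (hl : 2 ≤ l)
    (hι : Nat.card ι ≤ l) (hP : ∀ i, (P i).index = l) : ∃ g, ∀ i, g ∉ P i := by
  classical
  by_contra hcon
  push Not at hcon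
  have := Fintype.ofFinite H
  have := Fintype.ofFinite ι
  obtain ⟨q, hq⟩ : ∃ q, q = Fintype.card H / l := ⟨_, rfl⟩
  have hcard : ∀ i, ((Finset.univ : Finset H).filter fun g => g ∈ P i).card = q ∧ q * l = Fintype.card H := by
    intro i
    have h1 := Subgroup.card_mul_index (P i)
    rw [hP i, Nat.card_eq_fintype_card (α := H)] at h1
    have h2 : Nat.card (P i) = q := by
      rw [hq, ← h1, Nat.mul_div_cancel _ (by omega)]
    refine ⟨?_, by rw [← h2, h1]⟩
    rw [← h2, Nat.card_eq_fintype_card, Fintype.card_subtype]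
  have h3 : (Finset.univ : Finset H).erase 1 ⊆ Finset.univ.biUnion fun i : ι =>
      ((Finset.univ : Finset H).filter fun g => g ∈ P i).erase 1 := by
    intro g hg
    obtain ⟨i, hi⟩ := hcon g
    rw [Finset.mem_biUnion]
    exact ⟨i, Finset.mem_univ i, Finset.mem_erase.2 ⟨(Finset.mem_erase.1 hg).1,
      Finset.mem_filter.2 ⟨Finset.mem_univ g, hi⟩⟩⟩
  have h4 := (Finset.card_le_card h3).trans Finset.card_biUnion_le
  have h5 : ∀ i : ι, (((Finset.univ : Finset H).filter fun g => g ∈ P i).erase 1).card = q - 1 := by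
    intro i
    rw [Finset.card_erase_of_mem (Finset.mem_filter.2 ⟨Finset.mem_univ _, one_mem _⟩), (hcard i).1]
  rw [Finset.card_erase_of_mem (Finset.mem_univ _), Finset.sum_congr rfl fun i _ => h5 i, Finset.sum_const,
    smul_eq_mul, Finset.card_univ, Finset.card_univ] at h4
  obtain ⟨i, -⟩ := hcon 1
  have h6 := (hcard i).2
  rw [Nat.card_eq_fintype_card] at hι
  have h7 : 0 < Fintype.card H := Fintype.card_pos
  have hq0 : 0 < q := by
    rcases Nat.eq_zero_or_pos q with h | h
    · rw [h] at h6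
      omega
    · exact h
  obtain ⟨q', rfl⟩ : ∃ q', q = q' + 1 := ⟨q - 1, by omega⟩
  rw [← h6, Nat.add_sub_cancel] at h4
  have h8 : Fintype.card ι * q' ≤ l * q' := Nat.mul_le_mul_right _ hι
  have h9 : (q' + 1) * l = l * q' + l := by ring
  omega

theorem exists_one_family [Finite H] [Finite C] [IsCyclic C] {ι : Type*} [Finite ι] (f : ι → H →* C)
    (hf : ∀ i, Function.Surjective (f i)) {l : ℕ} (hl : l.Prime) (hdvd : l ∣ Nat.card C)
    (hι : Nat.card ι ≤ l) : ∃ g, ∀ i, f i g ∉ pw C l := by
  obtain ⟨g, hg⟩ := exists_notMem_family (fun i => (pw C l).comap (f i)) hl.two_le hι fun i => by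
    rw [Subgroup.index_comap_of_surjective _ (hf i)]
    unfold pw
    rw [IsCyclic.index_powMonoidHom_range, Nat.gcd_eq_right hdvd]
  exact ⟨g, fun i h => hg i h⟩

theorem exists_set_family [Finite H] [Finite C] [IsCyclic C] {ι : Type*} [Finite ι] (f : ι → H →* C)
    (hf : ∀ i, Function.Surjective (f i)) (S : Finset ℕ)
    (hS : ∀ l ∈ S, l.Prime ∧ l ∣ Nat.card C ∧ Nat.card ι ≤ l) : ∃ g, ∀ l ∈ S, ∀ i, f i g ∉ pw C l := by
  induction S using Finset.induction_on with
  | empty => exact ⟨1, fun l hl => absurd hl (Finset.notMem_empty l)⟩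
  | insert q S hq ih =>
    obtain ⟨g, hg⟩ := ih fun l hl => hS l (Finset.mem_insert_of_mem hl)
    obtain ⟨hqp, hqd, hqi⟩ := hS q (Finset.mem_insert_self q S)
    obtain ⟨x, hx⟩ := exists_one_family f hf hqp hqd hqi
    refine ⟨g ^ q * x ^ (∏ l ∈ S, l), fun l hl i => ?_⟩
    rcases Finset.mem_insert.1 hl with rfl | hl'
    · have hcop : Nat.Coprime (∏ l ∈ S, l) l := Nat.Coprime.prod_left fun l' hl' =>
        (Nat.coprime_primes (hS l' (Finset.mem_insert_of_mem hl')).1 hqp).2 (by rintro rfl; exact hq hl')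
      rw [map_mul, map_pow, map_pow, Subgroup.mul_mem_cancel_left _ (pow_mem_pw _ _)]
      exact pow_notMem hcop (hx i)
    · have hlp := (hS l hl).1
      have hcop : Nat.Coprime q l := (Nat.coprime_primes hqp hlp).2 (by rintro rfl; exact hq hl')
      have hd : l ∣ ∏ l ∈ S, l := Finset.dvd_prod_of_mem _ hl'
      obtain ⟨m, hm⟩ := hd
      have hpm : ∀ y : C, y ^ (∏ l ∈ S, l) ∈ pw C l := by
        intro y
        rw [hm, mul_comm, pow_mul]
        exact pow_mem_pw _ _
      rw [map_mul, map_pow, map_pow, Subgroup.mul_mem_cancel_right _ (hpm _)]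
      exact pow_notMem hcop (hg l hl' i)

/-- **An element which generates in several cyclic quotients**, if their number is at most the least prime factor of
the order. -/
theorem exists_gen_family [Finite H] [Finite C] [IsCyclic C] {ι : Type*} [Finite ι] (f : ι → H →* C)
    (hf : ∀ i, Function.Surjective (f i)) (hι : ∀ l, l.Prime → l ∣ Nat.card C → Nat.card ι ≤ l) :
    ∃ g, ∀ i, Gen (f i g) := by
  obtain ⟨g, hg⟩ := exists_set_family f hf (Nat.card C).primeFactors fun l hl =>
    ⟨Nat.prime_of_mem_primeFactors hl, Nat.dvd_of_mem_primeFactors hl,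
      hι l (Nat.prime_of_mem_primeFactors hl) (Nat.dvd_of_mem_primeFactors hl)⟩
  have hmem : ∀ l, l.Prime → l ∣ Nat.card C → l ∈ (Nat.card C).primeFactors := fun l hl hd =>
    Nat.mem_primeFactors.2 ⟨hl, hd, Nat.card_pos.ne'⟩
  exact ⟨g, fun i => gen_of fun l hl hd => hg l (hmem l hl hd) i⟩

/-- a generator is an element whose order is the order of the group -/
theorem gen_iff_orderOf [Finite C] {c : C} : Gen c ↔ orderOf c = Nat.card C := by
  constructor
  · exact fun h => orderOf_eq_card_of_forall_mem_zpowers h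
  · intro h x
    have h2 : Subgroup.zpowers c = ⊤ := by
      apply Subgroup.eq_top_of_card_eq
      rw [Nat.card_zpowers, h]
    rw [h2]
    exact Subgroup.mem_top x

end Pool.Agent.H512.CY
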