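import Pool.Agent.H512.CY.Fld
import Pool.Agent.H512.CY.Fam

/-!
# Existence of automorphisms with one orbit
-/

set_option autoImplicit false
set_option linter.unusedSectionVars false

namespace Pool.Agent.H512.CY

open IntermediateField

variable {M K A : IntermediateField ℚ ℂ} [NumberField M] [IsGalois ℚ M] {s : K ≃ₐ[ℚ] K}

/-- an automorphism of `M` preserves a normal subfield -/
theorem stab_normal [Normal ℚ A] (hAM : A ≤ M) (g : M ≃ₐ[ℚ] M) {x : M} (hx : (x : ℂ) ∈ A) : (g x : ℂ) ∈ A := by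
  have h0 : @Normal ℚ A _ _ A.algebra' := by
    have h : Normal ℚ A := inferInstance
    convert h
    exact Subsingleton.elim _ _
  have h1 := @AlgHom.fieldRange_of_normal ℚ ℂ _ _ _ A h0 ((M.val.comp g.toAlgHom).comp (inc hAM))
  rw [← h1]
  exact ⟨⟨x, hx⟩, rfl⟩

theorem normal_Hk' [Normal ℚ A] (hAM : A ≤ M) : (Hk M A).Normal := by
  refine ⟨fun h hh g => ?_⟩
  intro x hx
  show g (h (g.symm x)) = x
  rw [hh _ (stab_normal hAM g.symm hx)]
  exact AlgEquiv.apply_symm_apply _ _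

/-- the image of `K` under an automorphism of `M` -/
noncomputable def fld (hKM : K ≤ M) (a : M ≃ₐ[ℚ] M) : IntermediateField ℚ ℂ :=
  ((M.val.comp a.toAlgHom).comp (inc hKM)).fieldRange

theorem mem_fld {hKM : K ≤ M} {a : M ≃ₐ[ℚ] M} {y : ℂ} : y ∈ fld hKM a ↔ ∃ x : K, (a (inc hKM x) : ℂ) = y := Iff.rfl

/-- the powers of the restriction of a conjugate -/
theorem res_pow_eq_one_iff (hKM : K ≤ M) (hAK : A ≤ K) (hs : IsGen A K s) {g a : M ≃ₐ[ℚ] M}
    (h : a⁻¹ * g * a ∈ Hk M A) (n : ℕ) : (res hKM hAK hs ⟨a⁻¹ * g * a, h⟩) ^ n = 1 ↔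
      ∀ x : K, (g ^ n) (a (inc hKM x)) = a (inc hKM x) := by
  have h2 : ((⟨a⁻¹ * g * a, h⟩ ^ n : Hk M A) : M ≃ₐ[ℚ] M) = a⁻¹ * g ^ n * a := by
    rw [SubmonoidClass.coe_pow]
    show (a⁻¹ * g * a) ^ n = _
    have := conj_pow (a := a⁻¹) (b := g) (i := n)
    rwa [inv_inv] at this
  have h3 : ∀ x : K, (a⁻¹ : M ≃ₐ[ℚ] M) ((g ^ n) (a (inc hKM x))) =
      inc hKM ((((res hKM hAK hs ⟨a⁻¹ * g * a, h⟩) ^ n : Subgroup.zpowers s) : K ≃ₐ[ℚ] K) x) := by
    intro x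
    have h1 := res_spec hKM hAK hs (⟨a⁻¹ * g * a, h⟩ ^ n) x
    rw [map_pow, h2] at h1
    exact h1
  constructor
  · intro h1 x
    have h4 := h3 x
    rw [h1] at h4
    have h5 : a ((a⁻¹ : M ≃ₐ[ℚ] M) ((g ^ n) (a (inc hKM x)))) = a (inc hKM x) := congrArg a h4
    exact (AlgEquiv.apply_symm_apply a ((g ^ n) (a (inc hKM x)))).symm.trans h5
  · intro h1
    apply Subtype.ext
    apply AlgEquiv.ext
    intro x
    have h4 := h3 x
    rw [h1 x] at h4
    have h5 : inc hKM x = (a⁻¹ : M ≃ₐ[ℚ] M) (a (inc hKM x)) := (AlgEquiv.symm_apply_apply a _).symm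
    rw [← h5] at h4
    exact ((inc hKM).injective h4).symm

theorem gen_congr (hKM : K ≤ M) (hAK : A ≤ K) (hs : IsGen A K s) {g a b : M ≃ₐ[ℚ] M}
    (ha : a⁻¹ * g * a ∈ Hk M A) (hb : b⁻¹ * g * b ∈ Hk M A) (hab : fld hKM a = fld hKM b)
    [Finite (Subgroup.zpowers s)]
    (hgen : Gen (res hKM hAK hs ⟨a⁻¹ * g * a, ha⟩)) : Gen (res hKM hAK hs ⟨b⁻¹ * g * b, hb⟩) := by
  rw [gen_iff_orderOf] at hgen ⊢
  rw [← hgen, orderOf_eq_orderOf_iff]
  intro n
  rw [res_pow_eq_one_iff, res_pow_eq_one_iff]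
  have key : ∀ {a b : M ≃ₐ[ℚ] M}, fld hKM a = fld hKM b →
      (∀ x : K, (g ^ n) (a (inc hKM x)) = a (inc hKM x)) → ∀ x : K, (g ^ n) (b (inc hKM x)) = b (inc hKM x) := by
    intro a b hab h1 x
    have h2 : ((b (inc hKM x) : M) : ℂ) ∈ fld hKM a := by
      rw [hab]
      exact mem_fld.2 ⟨x, rfl⟩
    obtain ⟨y, hy⟩ := mem_fld.1 h2
    have h3 : a (inc hKM y) = b (inc hKM x) := Subtype.ext hy
    rw [← h3, h1]
  exact ⟨key hab.symm, key hab⟩

/-- the conjugate fields of `K` -/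
def Conj (K : IntermediateField ℚ ℂ) : Set (IntermediateField ℚ ℂ) := {L | ∃ i : K →ₐ[ℚ] ℂ, L = i.fieldRange}

theorem conj_finite (K : IntermediateField ℚ ℂ) [FiniteDimensional ℚ K] : (Conj K).Finite := by
  have : Conj K = Set.range fun i : K →ₐ[ℚ] ℂ => i.fieldRange := by
    ext L
    constructor
    · rintro ⟨i, rfl⟩
      exact ⟨i, rfl⟩
    · rintro ⟨i, rfl⟩
      exact ⟨i, rfl⟩
  rw [this]
  exact Set.finite_range _

theorem fld_mem (hKM : K ≤ M) (a : M ≃ₐ[ℚ] M) : fld hKM a ∈ Conj K := ⟨_, rfl⟩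

/-- a criterion -/
theorem oneOrbit_of_gen (hKM : K ≤ M) (hAK : A ≤ K) (hs : IsGen A K s) {g : M ≃ₐ[ℚ] M}
    (h : ∀ a : M ≃ₐ[ℚ] M, ∃ ha : a⁻¹ * g * a ∈ Hk M A, Gen (res hKM hAK hs ⟨a⁻¹ * g * a, ha⟩)) : OneOrbit A K g := by
  intro i j hij
  obtain ⟨a, ha⟩ := ext_exists hKM i
  obtain ⟨h1, h2⟩ := h a
  exact move hKM hAK hs h1 h2 ha hij

/-- **Existence.** If `A / ℚ` is Galois and `K / A` cyclic, and no prime factor of the degree is smaller than the number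
of the conjugate fields of `K`, there is an automorphism `g` such that any two embeddings of `K` which agree on `A` differ
by a power of `g`. -/
theorem exists_oneOrbit [Normal ℚ A] (hKM : K ≤ M) (hAK : A ≤ K) (hs : IsGen A K s)
    (hl : ∀ l, l.Prime → l ∣ orderOf s → (Conj K).ncard ≤ l) : ∃ g : M ≃ₐ[ℚ] M, OneOrbit A K g := by
  classical
  have hKf : FiniteDimensional ℚ K := FiniteDimensional.of_injective (inc hKM).toLinearMap (inc hKM).injective
  have hN : (Hk M A).Normal := normal_Hk' (hAK.trans hKM)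
  have hfin : Finite (Subgroup.zpowers s) := inferInstance
  -- representatives
  have hconj : ∀ (g : M ≃ₐ[ℚ] M), g ∈ Hk M A → ∀ a : M ≃ₐ[ℚ] M, a⁻¹ * g * a ∈ Hk M A := by
    intro g hg a
    have := hN.conj_mem g hg a⁻¹
    rwa [inv_inv] at this
  have hrep : ∀ L : Set.range (fld hKM), ∃ a : M ≃ₐ[ℚ] M, fld hKM a = L := fun L => L.2
  choose rep hrep using hrep
  have hfr : (Set.range (fld hKM)) ⊆ Conj K := by
    rintro L ⟨a, rfl⟩
    exact fld_mem hKM a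
  have hcard : Nat.card (Set.range (fld hKM)) ≤ (Conj K).ncard := by
    rw [Nat.card_coe_set_eq]
    exact Set.ncard_le_ncard hfr (conj_finite K)
  have hfι : Finite (Set.range (fld hKM)) := (conj_finite K).subset hfr
  obtain ⟨g, hg⟩ := exists_gen_family (H := Hk M A) (C := Subgroup.zpowers s)
    (fun L : Set.range (fld hKM) => cj (res hKM hAK hs) (rep L))
    (fun L => cj_surj (res_surj hKM hAK hs) _) (fun l hlp hld => hcard.trans (hl l hlp (by
      rwa [Nat.card_zpowers] at hld)))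
  refine ⟨g, oneOrbit_of_gen hKM hAK hs fun a => ⟨hconj _ g.2 a, ?_⟩⟩
  have h1 : Gen (cj (res hKM hAK hs) (rep ⟨fld hKM a, a, rfl⟩) g) := hg ⟨fld hKM a, a, rfl⟩
  rw [cj_apply (res hKM hAK hs) _ g (y := ⟨_, hconj _ g.2 (rep ⟨fld hKM a, a, rfl⟩)⟩) rfl] at h1
  exact gen_congr hKM hAK hs _ (hconj _ g.2 a) (hrep _) h1

end Pool.Agent.H512.CY
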