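import Pool.Agent.H512.CY.Dn

/-!
# The density theorems
-/

set_option autoImplicit false
set_option linter.unusedSectionVars false

namespace Pool.Agent.H512.CY

open IntermediateField NumberField Filter Topology

variable {M K A k L : IntermediateField ℚ ℂ} {s : K ≃ₐ[ℚ] K}

theorem galoisOver_of_isGen (hs : IsGen k K s) : GaloisOver k K := by
  intro i hi
  obtain ⟨n, hn⟩ := hs.2 i hi
  ext y
  constructor
  · rintro ⟨x, rfl⟩
    show i x ∈ K
    rw [hn x]
    exact ((s ^ n) x).2
  · intro hy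
    refine ⟨(s ^ n).symm ⟨y, hy⟩, ?_⟩
    show i _ = y
    rw [hn, AlgEquiv.apply_symm_apply]

theorem normal_quadratic (hk : Module.finrank ℚ k = 2) : Normal ℚ k := by
  have : Algebra.IsQuadraticExtension ℚ k := { finrank_eq_two' := hk }
  infer_instance

theorem range_of_normal [Normal ℚ A] (i : A →ₐ[ℚ] ℂ) : i.fieldRange = A := by
  have h0 : @Normal ℚ A _ _ A.algebra' := by
    have h : Normal ℚ A := inferInstance
    convert h
    exact Subsingleton.elim _ _
  exact @AlgHom.fieldRange_of_normal ℚ ℂ _ _ _ A h0 i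

theorem normal_of_range [FiniteDimensional ℚ K] (h : ∀ i : K →ₐ[ℚ] ℂ, i.fieldRange = K) : Normal ℚ K := by
  have hN : IsNormalClosure ℚ K (IntermediateField.normalClosure ℚ K ℂ) :=
    Algebra.IsAlgebraic.isNormalClosure_normalClosure (fun x => IsAlgClosed.splits _)
  have hn : Normal ℚ (IntermediateField.normalClosure ℚ K ℂ) := hN.normal
  have e : IntermediateField.normalClosure ℚ K ℂ = K := by
    apply le_antisymm
    · exact iSup_le fun i => (h i).le
    · intro x hx
      exact AlgHom.fieldRange_le_normalClosure K.val ⟨⟨x, hx⟩, rfl⟩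
  rw [e] at hn
  convert hn

theorem dens_lower [FiniteDimensional ℚ K] (hkA : k ≤ A) (hAK : A ≤ K) [Normal ℚ A] (hk : Module.finrank ℚ k = 2)
    (hG : GaloisOver k K) (hs : IsGen A K s) :
    LowerDensityAtLeast (((orderOf s).totient : ℝ) ^ 2 / ((orderOf s : ℝ) ^ 2 * Module.finrank ℚ A))
      fun p => Good p A K := by
  obtain ⟨M, hM1, hM2, hKM⟩ := exists_big K
  have h1 := card_lower hKM hkA hAK hk hG hs
  have hAf : FiniteDimensional ℚ A := FiniteDimensional.of_injective
    (IntermediateField.inclusion hAK).toLinearMap (IntermediateField.inclusion hAK).injective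
  have hpos : 0 < Module.finrank ℚ A := Module.finrank_pos
  have hs0 : 0 < orderOf s := orderOf_pos s
  refine density hKM hAK ?_
  rw [div_mul_eq_mul_div, div_le_iff₀ (by positivity)]
  exact_mod_cast h1

theorem dens_gal [FiniteDimensional ℚ K] (hAK : A ≤ K) [Normal ℚ A] [Normal ℚ K] (hs : IsGen A K s) :
    LowerDensityAtLeast (((orderOf s).totient : ℝ) / ((orderOf s : ℝ) * Module.finrank ℚ A))
      fun p => Good p A K := by
  obtain ⟨M, hM1, hM2, hKM⟩ := exists_big K
  have h1 := card_gal hKM hAK range_of_normal hs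
  have hAf : FiniteDimensional ℚ A := FiniteDimensional.of_injective
    (IntermediateField.inclusion hAK).toLinearMap (IntermediateField.inclusion hAK).injective
  have hpos : 0 < Module.finrank ℚ A := Module.finrank_pos
  have hs0 : 0 < orderOf s := orderOf_pos s
  refine density hKM hAK ?_
  rw [div_mul_eq_mul_div, div_le_iff₀ (by positivity)]
  exact_mod_cast h1

theorem dens_indep [FiniteDimensional ℚ K] (hkK : k ≤ K) (hk : Module.finrank ℚ k = 2) (hs : IsGen k K s)
    (hI : Indep k K) : LowerDensityAtLeast (((orderOf s).totient : ℝ) * ((orderOf s).totient + orderOf s) /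
      (2 * (orderOf s : ℝ) ^ 2)) fun p => Good p k K := by
  obtain ⟨M, hM1, hM2, hKM⟩ := exists_big K
  have h1 := card_oneOrbit hKM hkK hk hs hI
  have hs0 : 0 < orderOf s := orderOf_pos s
  refine density hKM hkK ?_
  rw [div_mul_eq_mul_div, div_le_iff₀ (by positivity), mul_comm]
  exact_mod_cast h1

/-- a positive proportion in the general case -/
theorem dens_conj [FiniteDimensional ℚ K] (hAK : A ≤ K) [Normal ℚ A] (hs : IsGen A K s)
    (hl : ∀ l, l.Prime → l ∣ orderOf s → (Conj K).ncard ≤ l) :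
    ∃ c : ℝ, 0 < c ∧ LowerDensityAtLeast c fun p => Good p A K := by
  obtain ⟨M, hM1, hM2, hKM⟩ := exists_big K
  obtain ⟨g, hg⟩ := exists_oneOrbit hKM hAK hs hl
  have hpos : (0 : ℝ) < Nat.card (M ≃ₐ[ℚ] M) := by exact_mod_cast Nat.card_pos
  refine ⟨1 / Nat.card (M ≃ₐ[ℚ] M), by positivity, density hKM hAK ?_⟩
  rw [one_div, inv_mul_cancel₀ hpos.ne']
  have : Nonempty {g : M ≃ₐ[ℚ] M // OneOrbit A K g} := ⟨⟨g, hg⟩⟩
  have h1 : 0 < Nat.card {g : M ≃ₐ[ℚ] M // OneOrbit A K g} := Nat.card_pos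
  exact_mod_cast h1

theorem ext_abs {F K M Ω : Type} [Field F] [Field K] [Field M] [Field Ω] [Algebra F K] [Algebra F M] [Algebra F Ω]
    [Algebra.IsAlgebraic F M] [IsAlgClosed Ω] (e : K →ₐ[F] M) (i : K →ₐ[F] Ω) : ∃ I : M →ₐ[F] Ω, ∀ x, I (e x) = i x := by
  let _ : Algebra K M := e.toRingHom.toAlgebra
  have : IsScalarTower F K M := IsScalarTower.of_algebraMap_eq fun x => (e.commutes x).symm
  let _ : Algebra K Ω := i.toRingHom.toAlgebra
  have : IsScalarTower F K Ω := IsScalarTower.of_algebraMap_eq fun x => (i.commutes x).symm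
  have : Algebra.IsAlgebraic K M := Algebra.IsAlgebraic.tower_top (K := F) K
  let I : M →ₐ[K] Ω := IsAlgClosed.lift
  exact ⟨I.restrictScalars F, fun x => I.commutes x⟩

/-- each embedding of `K` is the restriction of an automorphism of `M` -/
theorem exists_aut {M : IntermediateField ℚ ℂ} [NumberField M] [IsGalois ℚ M] (hKM : K ≤ M) (i : K →ₐ[ℚ] ℂ) :
    ∃ a : M ≃ₐ[ℚ] M, ∀ x, ((a (inc hKM x) : M) : ℂ) = i x := by
  have hnM : Normal ℚ M := inferInstance
  have halg : Algebra.IsAlgebraic ℚ M := inferInstance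
  obtain ⟨I, hI⟩ := ext_abs (inc hKM) i
  have h2 := range_of_normal (A := M) I
  have hle : ∀ x, i x ∈ M := by
    intro x
    rw [← hI]
    have h3 : I (inc hKM x) ∈ I.fieldRange := ⟨_, rfl⟩
    exact h2.le h3
  obtain ⟨a, ha⟩ := ext_exists hKM (AlgHom.codRestrict i M.toSubalgebra hle)
  exact ⟨a, fun x => congrArg Subtype.val (ha x)⟩

/-- a cyclic extension of prime degree which is not Galois over the rational numbers is independent of its conjugate -/
theorem indep_of_prime [FiniteDimensional ℚ K] (hkK : k ≤ K) (hk : Module.finrank ℚ k = 2) (hs : IsGen k K s)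
    (hp : (orderOf s).Prime) (hn : ¬ Normal ℚ K) : Indep k K := by
  obtain ⟨M, hM1, hM2, hKM⟩ := exists_big K
  have hkM := hkK.trans hKM
  have hG := galoisOver_of_isGen hs
  have hN : (Hk M k).Normal := normal_Hk hkM hk
  intro i hi y hy hyi
  obtain ⟨τ, hτ⟩ := exists_aut hKM i
  have hτk : τ ∉ Hk M k := by
    intro h
    obtain ⟨x, hx, hix⟩ := hi
    apply hix
    rw [← hτ, h _ hx]
    rfl
  have hfl : fld hKM τ = i.fieldRange := by
    ext z
    constructor
    · intro hz
      obtain ⟨x, rfl⟩ := mem_fld.1 hz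
      exact ⟨x, (hτ x).symm⟩
    · rintro ⟨x, rfl⟩
      exact mem_fld.2 ⟨x, hτ x⟩
  rw [← hfl] at hyi
  set L : IntermediateField ℚ ℂ := K ⊓ fld hKM τ with hL
  have hLM : L ≤ M := inf_le_left.trans hKM
  have hyL : y ∈ L := ⟨hy, hyi⟩
  have hkL : k ≤ L := by
    intro z hz
    refine ⟨hkK hz, ?_⟩
    have hzM : z ∈ M := hkM hz
    have h1 : ((τ.symm ⟨z, hzM⟩ : M) : ℂ) ∈ k := by
      apply fixed_mem hkM
      intro g hg
      have h2 := hN.conj_mem g hg τ
      have h3 : τ (g (τ.symm ⟨z, hzM⟩)) = ⟨z, hzM⟩ := h2 _ hz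
      have h4 : g (τ.symm ⟨z, hzM⟩) = τ.symm (τ (g (τ.symm ⟨z, hzM⟩))) := (AlgEquiv.symm_apply_apply _ _).symm
      rw [h3] at h4
      exact h4
    refine mem_fld.2 ⟨⟨_, hkK h1⟩, ?_⟩
    have h4 : τ (τ.symm ⟨z, hzM⟩) = ⟨z, hzM⟩ := AlgEquiv.apply_symm_apply _ _
    exact congrArg Subtype.val h4
  -- the image of the group of `L`
  let S : Subgroup (Hk M k) := (Hk M L).subgroupOf (Hk M k)
  have hprime : Fact (Nat.card (Subgroup.zpowers s)).Prime := ⟨by rwa [Nat.card_zpowers]⟩
  rcases Subgroup.eq_bot_or_eq_top_of_prime_card (S.map (res hKM hkK hs)) with h | h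
  · -- `K ≤ L`
    exfalso
    have h1 : Hk M L ≤ Hk M K := by
      intro g hg
      have hgk : g ∈ Hk M k := Hk_anti hkL hg
      have h2 : res hKM hkK hs ⟨g, hgk⟩ ∈ S.map (res hKM hkK hs) :=
        Subgroup.mem_map_of_mem _ (Subgroup.mem_subgroupOf.2 hg)
      rw [h, Subgroup.mem_bot, mem_ker_res] at h2
      exact h2
    have h2 : K ≤ L := le_of_Hk_le hKM hLM h1
    have h3 : K ≤ fld hKM τ := h2.trans inf_le_right
    have hfin : FiniteDimensional ℚ (fld hKM τ) := by
      have := fld_le hKM τ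
      exact FiniteDimensional.of_injective
        (IntermediateField.inclusion this).toLinearMap (IntermediateField.inclusion this).injective
    have h4 : K = fld hKM τ := by
      apply IntermediateField.eq_of_le_of_finrank_eq h3
      unfold fld
      exact (AlgEquiv.ofInjectiveField ((M.val.comp τ.toAlgHom).comp (inc hKM))).toLinearEquiv.finrank_eq
    apply hn
    apply normal_of_range
    intro i'
    obtain ⟨j', hj'⟩ := exists_aut hKM i'
    have hfl' : fld hKM j' = i'.fieldRange := by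
      ext z
      constructor
      · intro hz
        obtain ⟨x, rfl⟩ := mem_fld.1 hz
        exact ⟨x, (hj' x).symm⟩
      · rintro ⟨x, rfl⟩
        exact mem_fld.2 ⟨x, hj' x⟩
    rw [← hfl']
    by_cases ha : j' ∈ Hk M k
    · exact fld_eq_of_mem hKM hG ha
    · exact (fld_eq_of hKM hG (index_two hkM hk _ _ hτk ha)).trans h4.symm
  · -- `L ≤ k`
    have h1 : Hk M k ≤ Hk M L := by
      intro g hg
      have h2 : res hKM hkK hs ⟨g, hg⟩ ∈ S.map (res hKM hkK hs) := by
        rw [h]
        exact Subgroup.mem_top _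
      obtain ⟨t, ht, hte⟩ := Subgroup.mem_map.1 h2
      have h3 : res hKM hkK hs (t⁻¹ * ⟨g, hg⟩) = 1 := by
        rw [map_mul, map_inv, hte, inv_mul_cancel]
      rw [mem_ker_res] at h3
      have h4 : (t : M ≃ₐ[ℚ] M)⁻¹ * g ∈ Hk M L := Hk_anti inf_le_left h3
      have h5 : (t : M ≃ₐ[ℚ] M) ∈ Hk M L := Subgroup.mem_subgroupOf.1 ht
      exact (Subgroup.mul_mem_cancel_left _ (inv_mem h5)).1 h4
    exact le_of_Hk_le hLM hkM h1 hyL

end Pool.Agent.H512.CY
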