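import Pool.Agent.H512.CY.Cnt

/-!
# Cyclic extensions of quadratic fields: automorphisms with one orbit on the embeddings above each embedding of the
# quadratic field
-/

set_option autoImplicit false
set_option linter.unusedSectionVars false
set_option linter.unusedVariables false
set_option linter.style.haveILetI false

namespace Pool.Agent.H512.CY

open IntermediateField

/-- `K` is a cyclic extension of `k`: some automorphism `s` of `K` fixes `k`, and all embeddings of `K` in the complex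
numbers which are the identity on `k` are powers of `s`. -/
def IsGen (k K : IntermediateField ℚ ℂ) (s : K ≃ₐ[ℚ] K) : Prop :=
  (∀ x : K, (x : ℂ) ∈ k → s x = x) ∧
    ∀ i : K →ₐ[ℚ] ℂ, (∀ x : K, (x : ℂ) ∈ k → i x = x) → ∃ n : ℕ, ∀ x, i x = ((s ^ n) x : ℂ)

/-- the group generated by an element is commutative -/
instance zc {G : Type*} [Group G] (s : G) : CommGroup (Subgroup.zpowers s) :=
  { Subgroup.toGroup (Subgroup.zpowers s) with
    mul_comm := fun a b => by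
      obtain ⟨a, m, rfl⟩ := a
      obtain ⟨b, n, rfl⟩ := b
      apply Subtype.ext
      show s ^ m * s ^ n = s ^ n * s ^ m
      rw [← zpow_add, ← zpow_add, add_comm] }

variable {M K k : IntermediateField ℚ ℂ} [NumberField M] [IsGalois ℚ M]

/-- the automorphisms which fix `k` -/
def Hk (M k : IntermediateField ℚ ℂ) : Subgroup (M ≃ₐ[ℚ] M) where
  carrier := {g | ∀ x : M, (x : ℂ) ∈ k → g x = x}
  one_mem' := fun x _ => rfl
  mul_mem' := by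
    intro a b ha hb x hx
    rw [AlgEquiv.mul_apply, hb x hx, ha x hx]
  inv_mem' := by
    intro a ha x hx
    show a.symm x = x
    rw [AlgEquiv.symm_apply_eq, ha x hx]

theorem mem_Hk {g : M ≃ₐ[ℚ] M} : g ∈ Hk M k ↔ ∀ x : M, (x : ℂ) ∈ k → g x = x := Iff.rfl

/-- the inclusion -/
noncomputable def inc (hKM : K ≤ M) : K →ₐ[ℚ] M := IntermediateField.inclusion hKM

theorem inc_coe (hKM : K ≤ M) (x : K) : ((inc hKM x : M) : ℂ) = x := rfl

theorem ext_exists (hKM : K ≤ M) (i : K →ₐ[ℚ] M) : ∃ a : M ≃ₐ[ℚ] M, ∀ x, a (inc hKM x) = i x := by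
  letI : Algebra K M := (inc hKM).toRingHom.toAlgebra
  haveI : IsScalarTower ℚ K M := IsScalarTower.of_algebraMap_eq fun x => by
    rw [RingHom.algebraMap_toAlgebra]
    exact ((inc hKM).commutes x).symm
  have hb : Function.Bijective (AlgHom.liftNormal i M) := Algebra.IsAlgebraic.algHom_bijective _
  refine ⟨AlgEquiv.ofBijective (AlgHom.liftNormal i M) hb, fun x => ?_⟩
  have := AlgHom.liftNormal_commutes i M x
  exact this

variable {s : K ≃ₐ[ℚ] K}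

theorem pow_fix (hs : IsGen k K s) {c : K ≃ₐ[ℚ] K} (hc : c ∈ Subgroup.zpowers s) (x : K) (hx : (x : ℂ) ∈ k) :
    c x = x := by
  have h1 : ∀ a : K ≃ₐ[ℚ] K, a ∈ Subgroup.zpowers s → a ∈ Hk K k := fun a ha => by
    have : s ∈ Hk K k := hs.1
    exact (Subgroup.zpowers_le.2 this) ha
  exact h1 c hc x hx

theorem res_exists (hKM : K ≤ M) (hs : IsGen k K s) (j : K →ₐ[ℚ] M) (hj : ∀ x : K, (x : ℂ) ∈ k → j x = inc hKM x) :
    ∃ c ∈ Subgroup.zpowers s, ∀ x, j x = inc hKM (c x) := by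
  obtain ⟨n, hn⟩ := hs.2 (M.val.comp j) fun x hx => by
    exact congrArg Subtype.val (hj x hx)
  refine ⟨s ^ n, ⟨n, by simp⟩, fun x => ?_⟩
  apply Subtype.ext
  exact hn x

/-- the restriction to `K` -/
noncomputable def resFun (hKM : K ≤ M) (hkK : k ≤ K) (hs : IsGen k K s) (h : Hk M k) : Subgroup.zpowers s :=
  ⟨(res_exists hKM hs ((h : M ≃ₐ[ℚ] M).toAlgHom.comp (inc hKM)) (fun x hx => h.2 _ hx)).choose,
    (res_exists hKM hs ((h : M ≃ₐ[ℚ] M).toAlgHom.comp (inc hKM)) (fun x hx => h.2 _ hx)).choose_spec.1⟩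

theorem resFun_spec (hKM : K ≤ M) (hkK : k ≤ K) (hs : IsGen k K s) (h : Hk M k) (x : K) :
    (h : M ≃ₐ[ℚ] M) (inc hKM x) = inc hKM ((resFun hKM hkK hs h : K ≃ₐ[ℚ] K) x) :=
  (res_exists hKM hs ((h : M ≃ₐ[ℚ] M).toAlgHom.comp (inc hKM)) (fun x hx => h.2 _ hx)).choose_spec.2 x

theorem resFun_uniq (hKM : K ≤ M) (hkK : k ≤ K) (hs : IsGen k K s) (h : Hk M k) {c : Subgroup.zpowers s}
    (hc : ∀ x : K, (h : M ≃ₐ[ℚ] M) (inc hKM x) = inc hKM ((c : K ≃ₐ[ℚ] K) x)) : resFun hKM hkK hs h = c := by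
  apply Subtype.ext
  apply AlgEquiv.ext
  intro x
  have h1 : inc hKM ((resFun hKM hkK hs h : K ≃ₐ[ℚ] K) x) = inc hKM ((c : K ≃ₐ[ℚ] K) x) := by
    rw [← resFun_spec, hc]
  exact (inc hKM).injective h1

/-- the restriction homomorphism -/
noncomputable def res (hKM : K ≤ M) (hkK : k ≤ K) (hs : IsGen k K s) : Hk M k →* Subgroup.zpowers s where
  toFun := resFun hKM hkK hs
  map_one' := resFun_uniq hKM hkK hs 1 fun x => rfl
  map_mul' a b := resFun_uniq hKM hkK hs (a * b) fun x => by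
    rw [Subgroup.coe_mul, Subgroup.coe_mul, AlgEquiv.mul_apply, AlgEquiv.mul_apply, resFun_spec hKM hkK hs b,
      resFun_spec hKM hkK hs a]

theorem res_spec (hKM : K ≤ M) (hkK : k ≤ K) (hs : IsGen k K s) (h : Hk M k) (x : K) :
    (h : M ≃ₐ[ℚ] M) (inc hKM x) = inc hKM ((res hKM hkK hs h : K ≃ₐ[ℚ] K) x) := resFun_spec hKM hkK hs h x

theorem res_surj (hKM : K ≤ M) (hkK : k ≤ K) (hs : IsGen k K s) : Function.Surjective (res hKM hkK hs) := by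
  intro c
  obtain ⟨a, ha⟩ := ext_exists hKM ((inc hKM).comp (c : K ≃ₐ[ℚ] K).toAlgHom)
  have haH : a ∈ Hk M k := by
    intro x hx
    have h1 : x = inc hKM ⟨x, hkK hx⟩ := Subtype.ext rfl
    rw [h1, ha]
    show inc hKM ((c : K ≃ₐ[ℚ] K) _) = _
    rw [pow_fix hs c.2 _ hx]
  exact ⟨⟨a, haH⟩, resFun_uniq hKM hkK hs ⟨a, haH⟩ fun x => ha x⟩

/-- two automorphisms which do not fix `k` differ by one which does, if `k` is quadratic -/
theorem index_two (hkM : k ≤ M) (hk : Module.finrank ℚ k = 2) (a b : M ≃ₐ[ℚ] M) (ha : a ∉ Hk M k)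
    (hb : b ∉ Hk M k) : a⁻¹ * b ∈ Hk M k := by
  classical
  have hfin : FiniteDimensional ℚ k := Module.finite_of_finrank_pos (by omega)
  let i0 : k →ₐ[ℚ] M := inc hkM
  let i1 : k →ₐ[ℚ] M := a.toAlgHom.comp i0
  let i2 : k →ₐ[ℚ] M := b.toAlgHom.comp i0
  have h01 : i1 ≠ i0 := by
    intro h
    apply ha
    intro x hx
    exact DFunLike.congr_fun h ⟨x, hx⟩
  have h02 : i2 ≠ i0 := by
    intro h
    apply hb
    intro x hx
    exact DFunLike.congr_fun h ⟨x, hx⟩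
  have hft : Fintype (k →ₐ[ℚ] M) := Fintype.ofFinite _
  have hcard : Fintype.card (k →ₐ[ℚ] M) ≤ 2 := by
    rw [← hk]
    have := card_algHom_le_finrank ℚ k M
    rwa [Nat.card_eq_fintype_card] at this
  have h12 : i1 = i2 := by
    by_contra hne
    have h3 : ({i0, i1, i2} : Finset (k →ₐ[ℚ] M)).card = 3 := Finset.card_eq_three.2
      ⟨i0, i1, i2, h01.symm, h02.symm, hne, rfl⟩
    have h4 := Finset.card_le_univ ({i0, i1, i2} : Finset (k →ₐ[ℚ] M))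
    omega
  intro x hx
  have h5 : a x = b x := DFunLike.congr_fun h12 ⟨x, hx⟩
  show a.symm (b x) = x
  rw [AlgEquiv.symm_apply_eq, h5]

theorem normal_Hk (hkM : k ≤ M) (hk : Module.finrank ℚ k = 2) : (Hk M k).Normal := by
  refine ⟨fun h hh g => ?_⟩
  by_cases hg : g ∈ Hk M k
  · exact mul_mem (mul_mem hg hh) (inv_mem hg)
  · have h1 : (g * h)⁻¹ ∉ Hk M k := fun h' =>
      hg ((Subgroup.mul_mem_cancel_right _ hh).1 ((Subgroup.inv_mem_iff _).1 h'))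
    have h2 : g⁻¹ ∉ Hk M k := fun h' => hg ((Subgroup.inv_mem_iff _).1 h')
    have := index_two hkM hk _ _ h1 h2
    rwa [inv_inv] at this

/-- any two embeddings of `K` in `M` which agree on `k` differ by a power of `g` -/
def OneOrbit (k K : IntermediateField ℚ ℂ) (g : M ≃ₐ[ℚ] M) : Prop :=
  ∀ i j : K →ₐ[ℚ] M, (∀ x : K, (x : ℂ) ∈ k → i x = j x) → ∃ n : ℕ, ∀ x : K, (g ^ n) (i x) = j x

/-- conjugates -/
theorem OneOrbit.conj {g : M ≃ₐ[ℚ] M} (h : OneOrbit k K g) (a : M ≃ₐ[ℚ] M) : OneOrbit k K (a * g * a⁻¹) := by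
  intro i j hij
  obtain ⟨n, hn⟩ := h ((a⁻¹ : M ≃ₐ[ℚ] M).toAlgHom.comp i) ((a⁻¹ : M ≃ₐ[ℚ] M).toAlgHom.comp j) fun x hx => by
    show (a⁻¹ : M ≃ₐ[ℚ] M) (i x) = (a⁻¹ : M ≃ₐ[ℚ] M) (j x)
    rw [hij x hx]
  refine ⟨n, fun x => ?_⟩
  have h1 : (a * g * a⁻¹) ^ n = a * g ^ n * a⁻¹ := conj_pow
  rw [h1, AlgEquiv.mul_apply, AlgEquiv.mul_apply]
  have h2 : (g ^ n) ((a⁻¹ : M ≃ₐ[ℚ] M) (i x)) = (a⁻¹ : M ≃ₐ[ℚ] M) (j x) := hn x
  rw [h2]
  show a (a.symm (j x)) = j x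
  exact AlgEquiv.apply_symm_apply _ _

/-- the key computation: if `f (a⁻¹ g a)` generates then `g` moves `a ∘ inc` to all embeddings with the same restriction
to `k` -/
theorem move (hKM : K ≤ M) (hkK : k ≤ K) (hs : IsGen k K s) {g a : M ≃ₐ[ℚ] M} (h : a⁻¹ * g * a ∈ Hk M k)
    (hgen : Gen (res hKM hkK hs ⟨a⁻¹ * g * a, h⟩)) {i j : K →ₐ[ℚ] M} (ha : ∀ x, a (inc hKM x) = i x)
    (hij : ∀ x : K, (x : ℂ) ∈ k → i x = j x) : ∃ n : ℕ, ∀ x : K, (g ^ n) (i x) = j x := by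
  obtain ⟨c, hc, hcj⟩ := res_exists hKM hs ((a⁻¹ : M ≃ₐ[ℚ] M).toAlgHom.comp j) fun x hx => by
    show (a⁻¹ : M ≃ₐ[ℚ] M) (j x) = inc hKM x
    rw [← hij x hx, ← ha]
    exact AlgEquiv.symm_apply_apply _ _
  obtain ⟨z, hz⟩ := hgen ⟨c, hc⟩
  have hfin : IsOfFinOrder (res hKM hkK hs ⟨a⁻¹ * g * a, h⟩) :=
    (res hKM hkK hs).isOfFinOrder (isOfFinOrder_of_finite _)
  obtain ⟨n, hn⟩ := hfin.mem_powers_iff_mem_zpowers.2 (hgen ⟨c, hc⟩)
  simp only at hn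
  rw [← map_pow] at hn
  refine ⟨n, fun x => ?_⟩
  have h1 := res_spec hKM hkK hs (⟨a⁻¹ * g * a, h⟩ ^ n) x
  rw [hn, ← hcj x] at h1
  have h2 : ((⟨a⁻¹ * g * a, h⟩ ^ n : Hk M k) : M ≃ₐ[ℚ] M) = a⁻¹ * g ^ n * a := by
    rw [SubmonoidClass.coe_pow]
    show (a⁻¹ * g * a) ^ n = _
    have := conj_pow (a := a⁻¹) (b := g) (i := n)
    rwa [inv_inv] at this
  rw [h2, AlgEquiv.mul_apply, AlgEquiv.mul_apply, ha] at h1
  exact (a⁻¹ : M ≃ₐ[ℚ] M).injective h1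

/-- **Good elements.** -/
theorem oneOrbit_of_good (hKM : K ≤ M) (hkK : k ≤ K) (hk : Module.finrank ℚ k = 2) (hs : IsGen k K s)
    [(Hk M k).Normal] {τ g : M ≃ₐ[ℚ] M} (hτ : τ ∉ Hk M k) (hg : GoodEl (Hk M k) (res hKM hkK hs) τ g) :
    OneOrbit k K g := by
  have hkM : k ≤ M := hkK.trans hKM
  have hn := fun h (hh : h ∈ Hk M k) (a : M ≃ₐ[ℚ] M) => Subgroup.Normal.conj_mem (H := Hk M k) inferInstance h hh a
  intro i j hij
  obtain ⟨a, ha⟩ := ext_exists hKM i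
  rcases hg with ⟨h, h1, h2⟩ | ⟨h, h2, h3⟩
  · have h5 : a⁻¹ * g * a ∈ Hk M k := by
      have := hn g h a⁻¹
      rwa [inv_inv] at this
    apply move hKM hkK hs h5 _ ha hij
    by_cases haH : a ∈ Hk M k
    · have h6 : (⟨a⁻¹ * g * a, h5⟩ : Hk M k) = (⟨a, haH⟩ : Hk M k)⁻¹ * ⟨g, h⟩ * ⟨a, haH⟩ := rfl
      rw [h6, map_mul, map_mul, map_inv, mul_comm (_)⁻¹, inv_mul_cancel_right]
      exact h1
    · have hb : τ⁻¹ * a ∈ Hk M k := index_two hkM hk _ _ hτ haH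
      have h7 : τ⁻¹ * g * τ ∈ Hk M k := by
        have := hn g h τ⁻¹
        rwa [inv_inv] at this
      have h6 : (⟨a⁻¹ * g * a, h5⟩ : Hk M k) = (⟨τ⁻¹ * a, hb⟩ : Hk M k)⁻¹ * ⟨τ⁻¹ * g * τ, h7⟩ * ⟨τ⁻¹ * a, hb⟩ := by
        apply Subtype.ext
        simp only [Subgroup.coe_mul, Subgroup.coe_inv]
        group
      rw [h6, map_mul, map_mul, map_inv, mul_comm (_)⁻¹, inv_mul_cancel_right,
        ← cj_apply (res hKM hkK hs) τ ⟨g, h⟩ (y := ⟨τ⁻¹ * g * τ, h7⟩) rfl]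
      exact h2
  · have h5 : a⁻¹ * g ^ 2 * a ∈ Hk M k := by
      have := hn _ h2 a⁻¹
      rwa [inv_inv] at this
    have h8 : ∃ n : ℕ, ∀ x : K, ((g ^ 2) ^ n) (i x) = j x := by
      apply move hKM hkK hs h5 _ ha hij
      by_cases haH : a ∈ Hk M k
      · have h6 : (⟨a⁻¹ * g ^ 2 * a, h5⟩ : Hk M k) = (⟨a, haH⟩ : Hk M k)⁻¹ * ⟨g ^ 2, h2⟩ * ⟨a, haH⟩ := rfl
        rw [h6, map_mul, map_mul, map_inv, mul_comm (_)⁻¹, inv_mul_cancel_right]
        exact h3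
      · -- `a = g b` with `b` in `H`, and `g⁻¹ g² g = g²`
        have hb : g⁻¹ * a ∈ Hk M k := index_two hkM hk _ _ h haH
        have h6 : (⟨a⁻¹ * g ^ 2 * a, h5⟩ : Hk M k) = (⟨g⁻¹ * a, hb⟩ : Hk M k)⁻¹ * ⟨g ^ 2, h2⟩ * ⟨g⁻¹ * a, hb⟩ := by
          apply Subtype.ext
          simp only [Subgroup.coe_mul, Subgroup.coe_inv]
          group
        rw [h6, map_mul, map_mul, map_inv, mul_comm (_)⁻¹, inv_mul_cancel_right]
        exact h3
    obtain ⟨n, hn⟩ := h8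
    exact ⟨2 * n, fun x => by rw [pow_mul]; exact hn x⟩

end Pool.Agent.H512.CY
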