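import Mathlib

/-!
# Elements which generate in two cyclic quotients
-/

set_option autoImplicit false

namespace Pool.Agent.H512.CY

variable {H C : Type*} [Group H] [CommGroup C]

/-- `c` generates the group `C`. -/
def Gen (c : C) : Prop := ∀ x : C, x ∈ Subgroup.zpowers c

/-- the subgroup of `l`-th powers -/
def pw (C : Type*) [CommGroup C] (l : ℕ) : Subgroup C := (powMonoidHom l : C →* C).range

theorem mem_pw {l : ℕ} {x : C} : x ∈ pw C l ↔ ∃ y, y ^ l = x := Iff.rfl

theorem pow_mem_pw (l : ℕ) (x : C) : x ^ l ∈ pw C l := ⟨x, rfl⟩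

theorem mem_pw_of_pow {l m : ℕ} (h : Nat.Coprime m l) {x : C} (hx : x ^ m ∈ pw C l) : x ∈ pw C l := by
  have h1 : (m : ℤ) * Nat.gcdA m l + l * Nat.gcdB m l = 1 := by
    have := Nat.gcd_eq_gcd_ab m l
    rw [h] at this
    exact_mod_cast this.symm
  have h2 : x = (x ^ m) ^ Nat.gcdA m l * (x ^ Nat.gcdB m l) ^ l := by
    rw [← zpow_natCast x m, ← zpow_mul, ← zpow_natCast (x ^ Nat.gcdB m l) l, ← zpow_mul, ← zpow_add,
      mul_comm (Nat.gcdB m l) (l : ℤ), h1, zpow_one]
  rw [h2]
  exact mul_mem (Subgroup.zpow_mem _ hx _) (pow_mem_pw _ _)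

theorem pow_notMem {l m : ℕ} (h : Nat.Coprime m l) {x : C} (hx : x ∉ pw C l) : x ^ m ∉ pw C l :=
  fun h' => hx (mem_pw_of_pow h h')

/-- an element of a finite cyclic group is a generator if it is not an `l`-th power for the primes `l` dividing the
order -/
theorem gen_of [Finite C] [IsCyclic C] {c : C} (h : ∀ l, l.Prime → l ∣ Nat.card C → c ∉ pw C l) : Gen c := by
  obtain ⟨g, hg⟩ := IsCyclic.exists_generator (α := C)
  obtain ⟨j, hj⟩ := (isOfFinOrder_of_finite g).mem_powers_iff_mem_zpowers.2 (hg c)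
  simp only at hj
  have hgn : orderOf g = Nat.card C := orderOf_eq_card_of_forall_mem_zpowers hg
  by_cases hcop : Nat.Coprime (orderOf g) j
  · have h1 : orderOf c = Nat.card C := by
      rw [← hj, orderOf_pow, hcop, Nat.div_one, hgn]
    intro x
    have h2 : Subgroup.zpowers c = ⊤ := by
      apply Subgroup.eq_top_of_card_eq
      rw [Nat.card_zpowers, h1]
    rw [h2]
    exact Subgroup.mem_top x
  · obtain ⟨l, hl, hl1, hl2⟩ := Nat.Prime.not_coprime_iff_dvd.1 hcop
    exfalso
    apply h l hl (hgn ▸ hl1)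
    obtain ⟨i, rfl⟩ := hl2
    rw [← hj, mul_comm, pow_mul]
    exact pow_mem_pw _ _

/-- a generator is not an `l`-th power -/
theorem notMem_of_gen [Finite C] {c : C} (h : Gen c) {l : ℕ} (hl : l.Prime) (hdvd : l ∣ Nat.card C) :
    c ∉ pw C l := by
  rintro ⟨y, hy⟩
  have h1 : orderOf c = Nat.card C := orderOf_eq_card_of_forall_mem_zpowers h
  have h2 : orderOf c ∣ Nat.card C / l := by
    rw [orderOf_dvd_iff_pow_eq_one, ← hy]
    show (y ^ l) ^ _ = 1
    rw [← pow_mul, Nat.mul_div_cancel' hdvd, pow_card_eq_one']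
  have h3 := Nat.le_of_dvd (Nat.div_pos (Nat.le_of_dvd Nat.card_pos hdvd) hl.pos) h2
  rw [h1] at h3
  have h4 := Nat.div_lt_self (Nat.card_pos (α := C)) hl.one_lt
  omega

/-- not the union of two proper subgroups -/
theorem exists_notMem {P1 P2 : Subgroup H} (h1 : P1 ≠ ⊤) (h2 : P2 ≠ ⊤) : ∃ g, g ∉ P1 ∧ g ∉ P2 := by
  obtain ⟨a, ha⟩ : ∃ a, a ∉ P1 := by
    by_contra hcon
    push Not at hcon
    exact h1 ((Subgroup.eq_top_iff' _).2 hcon)
  obtain ⟨b, hb⟩ : ∃ b, b ∉ P2 := by
    by_contra hcon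
    push Not at hcon
    exact h2 ((Subgroup.eq_top_iff' _).2 hcon)
  by_cases ha2 : a ∈ P2
  · by_cases hb1 : b ∈ P1
    · exact ⟨a * b, fun h => ha ((Subgroup.mul_mem_cancel_right _ hb1).1 h),
        fun h => hb ((Subgroup.mul_mem_cancel_left _ ha2).1 h)⟩
    · exact ⟨b, hb1, hb⟩
  · exact ⟨a, ha, ha2⟩

theorem exists_one [Finite C] [IsCyclic C] (f1 f2 : H →* C) (h1 : Function.Surjective f1)
    (h2 : Function.Surjective f2) {l : ℕ} (hl : l.Prime) (hdvd : l ∣ Nat.card C) :
    ∃ g, f1 g ∉ pw C l ∧ f2 g ∉ pw C l := by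
  obtain ⟨c, hc⟩ := IsCyclic.exists_generator (α := C)
  have hc1 := notMem_of_gen hc hl hdvd
  have key : ∀ f : H →* C, Function.Surjective f → (pw C l).comap f ≠ ⊤ := by
    intro f hf htop
    obtain ⟨x, hx⟩ := hf c
    apply hc1
    rw [← hx]
    have : x ∈ (pw C l).comap f := by rw [htop]; exact Subgroup.mem_top x
    exact this
  exact exists_notMem (key f1 h1) (key f2 h2)

theorem exists_set [Finite C] [IsCyclic C] (f1 f2 : H →* C) (h1 : Function.Surjective f1)
    (h2 : Function.Surjective f2) (S : Finset ℕ) (hS : ∀ l ∈ S, l.Prime ∧ l ∣ Nat.card C) :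
    ∃ g, ∀ l ∈ S, f1 g ∉ pw C l ∧ f2 g ∉ pw C l := by
  induction S using Finset.induction_on with
  | empty => exact ⟨1, fun l hl => absurd hl (Finset.notMem_empty l)⟩
  | insert q S hq ih =>
    obtain ⟨g, hg⟩ := ih fun l hl => hS l (Finset.mem_insert_of_mem hl)
    obtain ⟨hqp, hqd⟩ := hS q (Finset.mem_insert_self q S)
    obtain ⟨x, hx⟩ := exists_one f1 f2 h1 h2 hqp hqd
    refine ⟨g ^ q * x ^ (∏ l ∈ S, l), fun l hl => ?_⟩
    rcases Finset.mem_insert.1 hl with rfl | hl'
    · have hcop : Nat.Coprime (∏ l ∈ S, l) l := Nat.Coprime.prod_left fun l' hl' =>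
        (Nat.coprime_primes (hS l' (Finset.mem_insert_of_mem hl')).1 hqp).2 (by rintro rfl; exact hq hl')
      constructor
      · rw [map_mul, map_pow, map_pow, Subgroup.mul_mem_cancel_left _ (pow_mem_pw _ _)]
        exact pow_notMem hcop hx.1
      · rw [map_mul, map_pow, map_pow, Subgroup.mul_mem_cancel_left _ (pow_mem_pw _ _)]
        exact pow_notMem hcop hx.2
    · have hlp := (hS l hl).1
      have hcop : Nat.Coprime q l := (Nat.coprime_primes hqp hlp).2 (by rintro rfl; exact hq hl')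
      have hd : l ∣ ∏ l ∈ S, l := Finset.dvd_prod_of_mem _ hl'
      obtain ⟨m, hm⟩ := hd
      have hpm : ∀ y : C, y ^ (∏ l ∈ S, l) ∈ pw C l := by
        intro y
        rw [hm, mul_comm, pow_mul]
        exact pow_mem_pw _ _
      constructor
      · rw [map_mul, map_pow, map_pow, Subgroup.mul_mem_cancel_right _ (hpm _)]
        exact pow_notMem hcop (hg l hl').1
      · rw [map_mul, map_pow, map_pow, Subgroup.mul_mem_cancel_right _ (hpm _)]
        exact pow_notMem hcop (hg l hl').2

/-- **An element which generates in two cyclic quotients.** -/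
theorem exists_gen [Finite C] [IsCyclic C] (f1 f2 : H →* C) (h1 : Function.Surjective f1)
    (h2 : Function.Surjective f2) : ∃ g, Gen (f1 g) ∧ Gen (f2 g) := by
  obtain ⟨g, hg⟩ := exists_set f1 f2 h1 h2 (Nat.card C).primeFactors fun l hl =>
    ⟨Nat.prime_of_mem_primeFactors hl, Nat.dvd_of_mem_primeFactors hl⟩
  have hmem : ∀ l, l.Prime → l ∣ Nat.card C → l ∈ (Nat.card C).primeFactors := fun l hl hd =>
    Nat.mem_primeFactors.2 ⟨hl, hd, Nat.card_pos.ne'⟩
  exact ⟨g, gen_of fun l hl hd => (hg l (hmem l hl hd)).1, gen_of fun l hl hd => (hg l (hmem l hl hd)).2⟩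

/-- the number of generators of a cyclic group -/
theorem card_gen [Finite C] [IsCyclic C] : Nat.card {c : C // Gen c} = (Nat.card C).totient := by
  classical
  have := Fintype.ofFinite C
  rw [← IsCyclic.card_orderOf_eq_totient (α := C) (d := Nat.card C) (by rw [Nat.card_eq_fintype_card]),
    Nat.card_eq_fintype_card, Fintype.card_subtype]
  congr 1
  ext c
  rw [Finset.mem_filter, Finset.mem_filter]
  refine and_congr_right fun _ => ?_
  constructor
  · exact fun h => orderOf_eq_card_of_forall_mem_zpowers h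
  · intro h x
    have h2 : Subgroup.zpowers c = ⊤ := by
      apply Subgroup.eq_top_of_card_eq
      rw [Nat.card_zpowers, h]
    rw [h2]
    exact Subgroup.mem_top x

/-- the size of a preimage under a surjective homomorphism -/
theorem card_preimage {D : Type*} [Group D] [Finite H] (f : H →* D) (hf : Function.Surjective f) (S : D → Prop) :
    Nat.card {h : H // S (f h)} * Nat.card D = Nat.card {d : D // S d} * Nat.card H := by
  classical
  have hD : Finite D := Finite.of_surjective f hf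
  have h1 : Nat.card H = Nat.card D * Nat.card f.ker := by
    have e1 := Subgroup.card_eq_card_quotient_mul_card_subgroup f.ker
    rw [e1, Nat.card_congr (QuotientGroup.quotientKerEquivOfSurjective f hf).toEquiv]
  have h2 : Nat.card {h : H // S (f h)} = Nat.card {d : D // S d} * Nat.card f.ker := by
    rw [← Nat.card_prod]
    have hs : ∀ d : D, ∃ h, f h = d := hf
    choose g hg using hs
    refine Nat.card_congr ⟨fun h => (⟨f h.1, h.2⟩, ⟨(g (f h.1))⁻¹ * h.1, ?_⟩),
      fun x => ⟨g x.1.1 * x.2.1, ?_⟩, fun h => ?_, fun x => ?_⟩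
    · rw [MonoidHom.mem_ker, map_mul, map_inv, hg, inv_mul_cancel]
    · rw [map_mul, hg, MonoidHom.mem_ker.1 x.2.2, mul_one]
      exact x.1.2
    · simp
    · have e : f (g x.1.1 * x.2.1) = x.1.1 := by
        rw [map_mul, hg, MonoidHom.mem_ker.1 x.2.2, mul_one]
      ext
      · exact e
      · simp [e]
  rw [h2, h1]
  ring

end Pool.Agent.H512.CY
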