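import Pool.Agent.H512.CY.Ex

/-!
# Independence of the conjugate extensions
-/

set_option autoImplicit false
set_option linter.unusedSectionVars false

namespace Pool.Agent.H512.CY

open IntermediateField

variable {M K k L : IntermediateField ℚ ℂ} [NumberField M] [IsGalois ℚ M] {s : K ≃ₐ[ℚ] K}

/-- Galois theory -/
theorem fixed_mem (hLM : L ≤ M) {x : M} (h : ∀ g ∈ Hk M L, g x = x) : (x : ℂ) ∈ L := by
  have h1 : x ∈ fixedField (fixingSubgroup (inc hLM).fieldRange) := by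
    rw [mem_fixedField_iff]
    intro g hg
    apply h
    intro y hy
    rw [IntermediateField.mem_fixingSubgroup_iff] at hg
    exact hg y ⟨⟨y, hy⟩, rfl⟩
  rw [IsGalois.fixedField_fixingSubgroup] at h1
  obtain ⟨y, hy⟩ := h1
  rw [← hy]
  exact y.2

theorem Hk_anti {L L' : IntermediateField ℚ ℂ} (h : L ≤ L') : Hk M L' ≤ Hk M L := fun g hg x hx => hg x (h hx)

theorem le_of_Hk_le {L L' : IntermediateField ℚ ℂ} (hLM : L ≤ M) (hLM' : L' ≤ M) (h : Hk M L' ≤ Hk M L) : L ≤ L' := by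
  intro x hx
  exact fixed_mem (M := M) hLM' (x := ⟨x, hLM hx⟩) fun g hg => h hg _ hx

theorem fld_le (hKM : K ≤ M) (a : M ≃ₐ[ℚ] M) : fld hKM a ≤ M := by
  intro y hy
  obtain ⟨x, rfl⟩ := mem_fld.1 hy
  exact (a (inc hKM x)).2

theorem mem_Hk_fld (hKM : K ≤ M) (a g : M ≃ₐ[ℚ] M) : g ∈ Hk M (fld hKM a) ↔ a⁻¹ * g * a ∈ Hk M K := by
  constructor
  · intro h x hx
    have h1 : g (a x) = a x := h _ (mem_fld.2 ⟨⟨x, hx⟩, rfl⟩)
    show a.symm (g (a x)) = x
    rw [h1]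
    exact AlgEquiv.symm_apply_apply _ _
  · intro h x hx
    obtain ⟨y, hy⟩ := mem_fld.1 hx
    have h1 : a (inc hKM y) = x := Subtype.ext hy
    have h2 : a.symm (g (a (inc hKM y))) = inc hKM y := h _ y.2
    rw [AlgEquiv.symm_apply_eq] at h2
    rw [← h1, h2]

/-- the supremum of the groups of two fields is the group of the intersection -/
theorem sup_Hk {L1 L2 : IntermediateField ℚ ℂ} (h1 : L1 ≤ M) (h2 : L2 ≤ M) (hk : ∀ y, y ∈ L1 → y ∈ L2 → y ∈ k) :
    Hk M k ≤ Hk M L1 ⊔ Hk M L2 := by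
  intro g hg
  have e : fixingSubgroup (fixedField (Hk M L1 ⊔ Hk M L2)) = Hk M L1 ⊔ Hk M L2 := fixingSubgroup_fixedField _
  rw [← e, IntermediateField.mem_fixingSubgroup_iff]
  intro x hx
  rw [mem_fixedField_iff] at hx
  apply hg
  apply hk
  · exact fixed_mem h1 fun g hg => hx g (le_sup_left (a := Hk M L1) hg)
  · exact fixed_mem h2 fun g hg => hx g (le_sup_right (a := Hk M L1) hg)

theorem mem_ker_res (hKM : K ≤ M) (hkK : k ≤ K) (hs : IsGen k K s) (h : Hk M k) :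
    res hKM hkK hs h = 1 ↔ (h : M ≃ₐ[ℚ] M) ∈ Hk M K := by
  constructor
  · intro h1 x hx
    have h2 := res_spec hKM hkK hs h ⟨x, hx⟩
    rw [h1] at h2
    exact h2
  · intro h1
    apply Subtype.ext
    apply AlgEquiv.ext
    intro x
    have h2 := res_spec hKM hkK hs h x
    rw [h1 _ x.2] at h2
    exact ((inc hKM).injective h2).symm

/-- joint surjectivity -/
theorem joint (hKM : K ≤ M) (hkK : k ≤ K) (hs : IsGen k K s) [hN : (Hk M k).Normal]
    {τ : M ≃ₐ[ℚ] M} (hdis : ∀ y, y ∈ K → y ∈ fld hKM τ → y ∈ k) (c c' : Subgroup.zpowers s) :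
    ∃ h, res hKM hkK hs h = c ∧ cj (res hKM hkK hs) τ h = c' := by
  set f := res hKM hkK hs with hf
  have hsurj : Function.Surjective f := res_surj hKM hkK hs
  have hK : ∀ g, g ∈ Hk M K → g ∈ Hk M k := fun g hg => Hk_anti hkK hg
  have hK2 : ∀ g, g ∈ Hk M (fld hKM τ) → g ∈ Hk M k := by
    intro g hg
    rw [mem_Hk_fld] at hg
    have h1 := hN.conj_mem _ (hK _ hg) τ
    have h2 : τ * (τ⁻¹ * g * τ) * τ⁻¹ = g := by group
    rwa [h2] at h1
  have hconj : ∀ h : Hk M k, τ⁻¹ * (h : M ≃ₐ[ℚ] M) * τ ∈ Hk M k := by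
    intro h
    have := hN.conj_mem _ h.2 τ⁻¹
    rwa [inv_inv] at this
  have hker2 : ∀ h : Hk M k, cj f τ h = 1 ↔ (h : M ≃ₐ[ℚ] M) ∈ Hk M (fld hKM τ) := by
    intro h
    rw [cj_apply f τ h (y := ⟨_, hconj h⟩) rfl, hf, mem_ker_res, mem_Hk_fld]
  have htop : ∀ h : Hk M k, h ∈ f.ker ⊔ (cj f τ).ker := by
    have h1 : (f.ker ⊔ (cj f τ).ker).map (Hk M k).subtype = Hk M K ⊔ Hk M (fld hKM τ) := by
      rw [Subgroup.map_sup]
      congr 1
      · ext g
        rw [Subgroup.mem_map]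
        constructor
        · rintro ⟨h, hh, rfl⟩
          exact (mem_ker_res hKM hkK hs h).1 hh
        · intro hg
          exact ⟨⟨g, hK g hg⟩, (mem_ker_res hKM hkK hs _).2 hg, rfl⟩
      · ext g
        rw [Subgroup.mem_map]
        constructor
        · rintro ⟨h, hh, rfl⟩
          exact (hker2 h).1 hh
        · intro hg
          exact ⟨⟨g, hK2 g hg⟩, (hker2 _).2 hg, rfl⟩
    intro h
    have h2 : (h : M ≃ₐ[ℚ] M) ∈ Hk M K ⊔ Hk M (fld hKM τ) := sup_Hk hKM (fld_le hKM τ) hdis h.2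
    rw [← h1, Subgroup.mem_map] at h2
    obtain ⟨h', hh', he⟩ := h2
    have : h' = h := Subtype.ext he
    rwa [← this]
  obtain ⟨h1, hh1⟩ := hsurj c
  obtain ⟨h2, hh2⟩ := cj_surj hsurj τ c'
  obtain ⟨y, hy, z, hz, hyz⟩ := Subgroup.mem_sup_of_normal_left.1 (htop (h1⁻¹ * h2))
  refine ⟨h1 * y, ?_, ?_⟩
  · rw [map_mul, MonoidHom.mem_ker.1 hy, mul_one, hh1]
  · have h3 : h1 * y = h2 * z⁻¹ := by
      rw [eq_mul_inv_iff_mul_eq, mul_assoc, hyz, mul_inv_cancel_left]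
    rw [h3, map_mul, map_inv, MonoidHom.mem_ker.1 hz, inv_one, mul_one, hh2]

/-- some automorphism does not fix a quadratic field -/
theorem exists_tau (hkM : k ≤ M) (hk : Module.finrank ℚ k = 2) : ∃ τ : M ≃ₐ[ℚ] M, τ ∉ Hk M k := by
  by_contra hcon
  push Not at hcon
  have h1 : k ≤ ⊥ := le_of_Hk_le hkM bot_le fun g _ => hcon g
  have h2 : k = ⊥ := le_antisymm h1 bot_le
  rw [h2, IntermediateField.finrank_bot] at hk
  omega

/-- `K` and its conjugate over the other embedding of `k` have intersection `k`. -/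
def Indep (k K : IntermediateField ℚ ℂ) : Prop :=
  ∀ i : K →ₐ[ℚ] ℂ, (∃ x : K, (x : ℂ) ∈ k ∧ i x ≠ x) → ∀ y : ℂ, y ∈ K → y ∈ i.fieldRange → y ∈ k

/-- **The number of the automorphisms with one orbit.** -/
theorem card_oneOrbit (hKM : K ≤ M) (hkK : k ≤ K) (hk : Module.finrank ℚ k = 2) (hs : IsGen k K s)
    (hI : Indep k K) : Nat.card (M ≃ₐ[ℚ] M) * ((orderOf s).totient * ((orderOf s).totient + orderOf s)) ≤
      Nat.card {g : M ≃ₐ[ℚ] M // OneOrbit k K g} * (2 * (orderOf s) ^ 2) := by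
  obtain ⟨τ, hτ⟩ := exists_tau (hkK.trans hKM) hk
  have hN : (Hk M k).Normal := normal_Hk (hkK.trans hKM) hk
  have hdis : ∀ y, y ∈ K → y ∈ fld hKM τ → y ∈ k := by
    intro y hy hy'
    refine hI _ ?_ y hy hy'
    by_contra hcon
    push Not at hcon
    apply hτ
    intro x hx
    have h1 := hcon ⟨x, hkK hx⟩ hx
    exact Subtype.ext h1
  have h1 := card_good (f := res hKM hkK hs) (τ := τ) hτ (index_two (hkK.trans hKM) hk)
    (joint hKM hkK hs hdis)
  rw [Nat.card_zpowers] at h1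
  rw [← h1]
  refine Nat.mul_le_mul_right _ ?_
  exact Nat.card_le_card_of_injective
    (fun g : {g : M ≃ₐ[ℚ] M // GoodEl (Hk M k) (res hKM hkK hs) τ g} =>
      (⟨g.1, oneOrbit_of_good hKM hkK hk hs hτ g.2⟩ : {g : M ≃ₐ[ℚ] M // OneOrbit k K g}))
    (fun a b hab => Subtype.ext (congrArg (fun z : {g : M ≃ₐ[ℚ] M // OneOrbit k K g} => z.1) hab))

end Pool.Agent.H512.CY
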