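import Pool.Agent.H512.CY.Joint
import Pool.Agent.H512.CY.Cnt2

/-!
# Lower bounds for the number of the automorphisms with one orbit
-/

set_option autoImplicit false
set_option linter.unusedSectionVars false

namespace Pool.Agent.H512.CY

open IntermediateField

variable {M K A k L : IntermediateField ℚ ℂ} [NumberField M] [IsGalois ℚ M] {s : K ≃ₐ[ℚ] K}

theorem card_Hk (hLM : L ≤ M) : Nat.card (Hk M L) * Module.finrank ℚ L = Nat.card (M ≃ₐ[ℚ] M) := by
  have h1 : Hk M L = fixingSubgroup (inc hLM).fieldRange := by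
    ext g
    rw [IntermediateField.mem_fixingSubgroup_iff]
    constructor
    · rintro hg x ⟨y, rfl⟩
      exact hg _ y.2
    · intro hg x hx
      exact hg x ⟨⟨x, hx⟩, rfl⟩
  have h2 : Module.finrank ℚ L = Module.finrank ℚ (inc hLM).fieldRange :=
    (AlgEquiv.ofInjectiveField (inc hLM)).toLinearEquiv.finrank_eq
  rw [h1, h2, IsGalois.card_fixingSubgroup_eq_finrank, mul_comm, Module.finrank_mul_finrank,
    IsGalois.card_aut_eq_finrank]

/-- `K` is a Galois extension of `k`. -/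
def GaloisOver (k K : IntermediateField ℚ ℂ) : Prop :=
  ∀ i : K →ₐ[ℚ] ℂ, (∀ x : K, (x : ℂ) ∈ k → i x = x) → i.fieldRange = K

theorem fld_eq_of_mem (hKM : K ≤ M) (hG : GaloisOver k K) {a : M ≃ₐ[ℚ] M} (ha : a ∈ Hk M k) : fld hKM a = K := by
  apply hG
  intro x hx
  have h1 : a (inc hKM x) = inc hKM x := ha _ hx
  exact congrArg Subtype.val h1

theorem fld_eq_of (hKM : K ≤ M) (hG : GaloisOver k K) {a b : M ≃ₐ[ℚ] M} (hab : b⁻¹ * a ∈ Hk M k) :
    fld hKM a = fld hKM b := by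
  have key : ∀ {a b : M ≃ₐ[ℚ] M}, b⁻¹ * a ∈ Hk M k → fld hKM a ≤ fld hKM b := by
    intro a b hab y hy
    obtain ⟨x, rfl⟩ := mem_fld.1 hy
    have h1 := fld_eq_of_mem hKM hG hab
    have h2 : (((b⁻¹ * a) (inc hKM x) : M) : ℂ) ∈ K := by
      have h3 : (((b⁻¹ * a) (inc hKM x) : M) : ℂ) ∈ fld hKM (b⁻¹ * a) := mem_fld.2 ⟨x, rfl⟩
      rwa [h1] at h3
    refine mem_fld.2 ⟨⟨_, h2⟩, ?_⟩
    have h4 : b (b.symm (a (inc hKM x))) = a (inc hKM x) := AlgEquiv.apply_symm_apply _ _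
    exact congrArg Subtype.val h4
  refine le_antisymm (key hab) (key ?_)
  have : a⁻¹ * b = (b⁻¹ * a)⁻¹ := by group
  rw [this]
  exact inv_mem hab

/-- elements of a normal group which generate in the quotients which belong to `K` and to its conjugate -/
theorem oneOrbit_two (hKM : K ≤ M) (hkA : k ≤ A) (hAK : A ≤ K) [hN : (Hk M A).Normal] (hk : Module.finrank ℚ k = 2)
    (hG : GaloisOver k K) (hs : IsGen A K s) {τ : M ≃ₐ[ℚ] M} (hτ : τ ∉ Hk M k) (g : Hk M A)
    (h1 : Gen (res hKM hAK hs g)) (h2 : Gen (cj (res hKM hAK hs) τ g)) : OneOrbit A K (g : M ≃ₐ[ℚ] M) := by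
  have hKf : FiniteDimensional ℚ K := FiniteDimensional.of_injective (inc hKM).toLinearMap (inc hKM).injective
  have hfin : Finite (Subgroup.zpowers s) := inferInstance
  have hconj : ∀ a : M ≃ₐ[ℚ] M, a⁻¹ * g * a ∈ Hk M A := by
    intro a
    have := hN.conj_mem g g.2 a⁻¹
    rwa [inv_inv] at this
  refine oneOrbit_of_gen hKM hAK hs fun a => ⟨hconj a, ?_⟩
  by_cases ha : a ∈ Hk M k
  · refine gen_congr hKM hAK hs (hconj 1) (hconj a) (fld_eq_of hKM hG ?_) ?_
    · rw [mul_one]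
      exact inv_mem ha
    · have e : (⟨_, hconj 1⟩ : Hk M A) = g := by
        apply Subtype.ext
        show (1 : M ≃ₐ[ℚ] M)⁻¹ * g * 1 = g
        rw [inv_one, one_mul, mul_one]
      rw [e]
      exact h1
  · refine gen_congr hKM hAK hs (hconj τ) (hconj a) (fld_eq_of hKM hG ?_) ?_
    · exact index_two (hkA.trans (hAK.trans hKM)) hk a τ ha hτ
    · rw [cj_apply (res hKM hAK hs) τ g (y := ⟨_, hconj τ⟩) rfl] at h2
      exact h2

/-- **Lower bound.** -/
theorem card_lower (hKM : K ≤ M) (hkA : k ≤ A) (hAK : A ≤ K) [Normal ℚ A] (hk : Module.finrank ℚ k = 2)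
    (hG : GaloisOver k K) (hs : IsGen A K s) : (orderOf s).totient ^ 2 * Nat.card (M ≃ₐ[ℚ] M) ≤
      Nat.card {g : M ≃ₐ[ℚ] M // OneOrbit A K g} * ((orderOf s) ^ 2 * Module.finrank ℚ A) := by
  obtain ⟨τ, hτ⟩ := exists_tau (hkA.trans (hAK.trans hKM)) hk
  have hN : (Hk M A).Normal := normal_Hk' (hAK.trans hKM)
  have hKf : FiniteDimensional ℚ K := FiniteDimensional.of_injective (inc hKM).toLinearMap (inc hKM).injective
  have hfin : Finite (Subgroup.zpowers s) := inferInstance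
  have h1 := card_two (res hKM hAK hs) (cj (res hKM hAK hs) τ) (res_surj hKM hAK hs)
    (cj_surj (res_surj hKM hAK hs) τ)
  rw [Nat.card_zpowers] at h1
  have h2 : Nat.card {h : Hk M A // Gen (res hKM hAK hs h) ∧ Gen (cj (res hKM hAK hs) τ h)} ≤
      Nat.card {g : M ≃ₐ[ℚ] M // OneOrbit A K g} :=
    Nat.card_le_card_of_injective
      (fun g : {h : Hk M A // Gen (res hKM hAK hs h) ∧ Gen (cj (res hKM hAK hs) τ h)} =>
        (⟨g.1, oneOrbit_two hKM hkA hAK hk hG hs hτ g.1 g.2.1 g.2.2⟩ : {g : M ≃ₐ[ℚ] M // OneOrbit A K g}))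
      (fun a b hab => Subtype.ext (Subtype.ext (congrArg (fun z : {g : M ≃ₐ[ℚ] M // OneOrbit A K g} => z.1) hab)))
  rw [← card_Hk (hAK.trans hKM)]
  calc (orderOf s).totient ^ 2 * (Nat.card (Hk M A) * Module.finrank ℚ A) =
        ((orderOf s).totient ^ 2 * Nat.card (Hk M A)) * Module.finrank ℚ A := by ring
    _ ≤ (Nat.card {h : Hk M A // Gen (res hKM hAK hs h) ∧ Gen (cj (res hKM hAK hs) τ h)} * (orderOf s) ^ 2) *
          Module.finrank ℚ A := Nat.mul_le_mul_right _ h1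
    _ ≤ (Nat.card {g : M ≃ₐ[ℚ] M // OneOrbit A K g} * (orderOf s) ^ 2) * Module.finrank ℚ A :=
        Nat.mul_le_mul_right _ (Nat.mul_le_mul_right _ h2)
    _ = _ := by ring

/-- the case that `K / ℚ` is Galois -/
theorem card_gal (hKM : K ≤ M) (hAK : A ≤ K) [Normal ℚ A] (hG : ∀ i : K →ₐ[ℚ] ℂ, i.fieldRange = K)
    (hs : IsGen A K s) : (orderOf s).totient * Nat.card (M ≃ₐ[ℚ] M) ≤
      Nat.card {g : M ≃ₐ[ℚ] M // OneOrbit A K g} * (orderOf s * Module.finrank ℚ A) := by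
  have hN : (Hk M A).Normal := normal_Hk' (hAK.trans hKM)
  have hKf : FiniteDimensional ℚ K := FiniteDimensional.of_injective (inc hKM).toLinearMap (inc hKM).injective
  have hfin : Finite (Subgroup.zpowers s) := inferInstance
  have h1 := card_preimage (res hKM hAK hs) (res_surj hKM hAK hs) Gen
  rw [card_gen, Nat.card_zpowers] at h1
  have hone : ∀ g : Hk M A, Gen (res hKM hAK hs g) → OneOrbit A K (g : M ≃ₐ[ℚ] M) := by
    intro g hg
    have hconj : ∀ a : M ≃ₐ[ℚ] M, a⁻¹ * g * a ∈ Hk M A := by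
      intro a
      have := hN.conj_mem g g.2 a⁻¹
      rwa [inv_inv] at this
    refine oneOrbit_of_gen hKM hAK hs fun a => ⟨hconj a, ?_⟩
    refine gen_congr hKM hAK hs (hconj 1) (hconj a) ((hG _).trans (hG _).symm) ?_
    have e : (⟨_, hconj 1⟩ : Hk M A) = g := by
      apply Subtype.ext
      show (1 : M ≃ₐ[ℚ] M)⁻¹ * g * 1 = g
      rw [inv_one, one_mul, mul_one]
    rw [e]
    exact hg
  have h2 : Nat.card {h : Hk M A // Gen (res hKM hAK hs h)} ≤ Nat.card {g : M ≃ₐ[ℚ] M // OneOrbit A K g} :=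
    Nat.card_le_card_of_injective
      (fun g : {h : Hk M A // Gen (res hKM hAK hs h)} =>
        (⟨g.1, hone g.1 g.2⟩ : {g : M ≃ₐ[ℚ] M // OneOrbit A K g}))
      (fun a b hab => Subtype.ext (Subtype.ext (congrArg (fun z : {g : M ≃ₐ[ℚ] M // OneOrbit A K g} => z.1) hab)))
  rw [← card_Hk (hAK.trans hKM)]
  calc (orderOf s).totient * (Nat.card (Hk M A) * Module.finrank ℚ A) =
        ((orderOf s).totient * Nat.card (Hk M A)) * Module.finrank ℚ A := by ring
    _ = (Nat.card {h : Hk M A // Gen (res hKM hAK hs h)} * orderOf s) * Module.finrank ℚ A := by rw [h1]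
    _ ≤ (Nat.card {g : M ≃ₐ[ℚ] M // OneOrbit A K g} * orderOf s) * Module.finrank ℚ A :=
        Nat.mul_le_mul_right _ (Nat.mul_le_mul_right _ h2)
    _ = _ := by ring

end Pool.Agent.H512.CY
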